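import Pool.Agent.Run7.h731.SE.Dual

/-!
# Large Jordan blocks, and the semisimple case
-/

set_option autoImplicit false
set_option linter.unusedSectionVars false

namespace Pool.Agent.Run7.h731.SE

open TensorProduct Module MonoidAlgebra Filter Topology

universe u v w

theorem ew_lt {j p : ℕ} (h : p ≤ j) : ew j p < 2 ^ j := by
  induction j generalizing p with
  | zero =>
    obtain rfl : p = 0 := by omega
    simp [ew]
  | succ j ih =>
    cases p with
    | zero => simp [ew]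
    | succ p =>
      have h1 := ih (p := p) (by omega)
      have h2 := ew_le j (p + 2)
      rw [pow_succ]
      simp only [ew]
      omega

theorem cf_sol_lt {Γ : Type*} [CommGroup Γ] {κ : Type*} [Fintype κ] (g₀ : Γ) (γ : κ → Γ) (n : ℕ) :
    cf (sol (single g₀ 1) (rest γ) n n) (g₀ ^ n) < cf (chi g₀ γ ^ n) (g₀ ^ n) := by
  classical
  rw [cf_sol, cf_chi_pow]
  refine Finset.sum_lt_sum (fun j _ => ?_) ⟨n, Finset.mem_range.2 (Nat.lt_succ_self n), ?_⟩
  · gcongr
    exact ew_le j n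
  · have h1 : cf (single g₀ 1 ^ n * rest γ ^ (n - n)) (g₀ ^ n) = 1 := by
      rw [Nat.sub_self, pow_zero, mul_one, MonoidAlgebra.single_pow, one_pow, cf_single, if_pos rfl]
    rw [h1, Nat.choose_self, one_mul, one_mul, mul_one, mul_one]
    exact ew_lt le_rfl

section Lin

variable {E : Type u} [Field E] {A : Type*} [AddCommGroup A] [Module E A] [FiniteDimensional E A]

theorem maxGen_eq_of_semisimple {F : Module.End E A} (h : ⨆ ν : E, F.eigenspace ν = ⊤) (μ : E) :
    F.maxGenEigenspace μ = F.eigenspace μ := by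
  have hle : ∀ ν, F.eigenspace ν ≤ F.maxGenEigenspace ν := by
    intro ν
    exact (Module.End.genEigenspace F ν).mono le_top
  refine le_antisymm (fun x hx => ?_) (hle μ)
  have hx1 : x ∈ F.eigenspace μ ⊔ ⨆ ν : {ν : E // ν ≠ μ}, F.eigenspace ν := by
    have h1 : (⨆ ν : E, F.eigenspace ν) ≤
        F.eigenspace μ ⊔ ⨆ ν : {ν : E // ν ≠ μ}, F.eigenspace ν := by
      refine iSup_le fun ν => ?_
      by_cases hν : ν = μ
      · rw [hν]; exact le_sup_left
      · exact le_sup_of_le_right (le_iSup (fun ν : {ν : E // ν ≠ μ} => F.eigenspace (ν : E)) ⟨ν, hν⟩)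
    exact h1 (by rw [h]; trivial)
  obtain ⟨a, ha, b, hb, rfl⟩ := Submodule.mem_sup.1 hx1
  have hb1 : b ∈ ⨆ ν, ⨆ (_ : ν ≠ μ), F.maxGenEigenspace ν := by
    have h1 : (⨆ ν : {ν : E // ν ≠ μ}, F.eigenspace (ν : E)) ≤
        ⨆ ν, ⨆ (_ : ν ≠ μ), F.maxGenEigenspace ν := by
      refine iSup_le fun ν => ?_
      exact le_iSup₂_of_le (f := fun ν (_ : ν ≠ μ) => F.maxGenEigenspace ν) (ν : E) ν.2 (hle _)
    exact h1 hb
  have hb2 : b ∈ F.maxGenEigenspace μ := by
    have h1 := Submodule.sub_mem _ hx (hle μ ha)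
    rwa [add_sub_cancel_left] at h1
  have h2 := (Module.End.independent_maxGenEigenspace F) μ
  have h3 : b = 0 := by
    have := (Submodule.disjoint_def.1 h2) b hb2 hb1
    exact this
  rw [h3, add_zero]
  exact ha

end Lin

namespace FrobCohomology

variable {q : ℕ} {E : Type u} [Field E] {C : FrobCohomology.{u, v, w} q E}

theorem Data.block {V : C.Var} {r₀ : ℕ} {μ : Eˣ} (D : C.Data V r₀ μ) [IsAlgClosed E] (n : ℕ) :
    ¬ (C.frob (C.pow V n) (n * r₀)).maxGenEigenspace ((μ : E) ^ n) ≤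
      (C.frob (C.pow V n) (n * r₀)).genEigenspace ((μ : E) ^ n) n := by
  intro hcon
  set P := C.betti (C.pow V n) with hP
  have h1 := D.kz_eq n (le_refl P) (g₀ r₀ μ ^ n)
  have h2 := D.chain n n (g₀ r₀ μ ^ n)
  have h3 := cf_sol_lt (g₀ r₀ μ) D.γ n
  have e : (g₀ r₀ μ : Multiplicative ℤ × Eˣ) ^ n =
      (Multiplicative.ofAdd ((n * r₀ : ℕ) : ℤ), μ ^ n) := by
    unfold g₀
    refine Prod.ext ?_ ?_
    · simp only [Prod.pow_fst]
      rw [← ofAdd_nsmul]
      congr 1
    · rfl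
  rw [← h1] at h3
  have h4 := h2.trans_lt h3
  rw [e, kz_nat, kz_nat, Units.val_pow_eq_pow_val,
    kd_max _ _ (finrank_le_betti (C.pow V n) (n * r₀)), kd_eq_genEigenspace] at h4
  have h5 := Submodule.finrank_mono hcon
  omega

end FrobCohomology

end Pool.Agent.Run7.h731.SE
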