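import Pool.Agent.Run7.h731.SE.Ten

/-!
# The dimensions of the kernels of `(G ⊗ F - ν) ^ p` are bounded in terms of those of `G`
-/

set_option autoImplicit false
set_option linter.unusedSectionVars false

namespace Pool.Agent.Run7.h731.SE

open TensorProduct Module

universe u v w

variable {E : Type u} [Field E] [IsAlgClosed E]

theorem exists_list (n : ℕ) : ∀ (A : Type v) [AddCommGroup A] [Module E A] [FiniteDimensional E A]
    (F : Module.End E A), Function.Injective F → finrank E A = n →
    ∃ l : Fin n → E, (∀ k, l k ≠ 0) ∧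
      ∀ (W : Type w) [AddCommGroup W] [Module E W] [FiniteDimensional E W] (G : Module.End E W)
        (ν : E) (p : ℕ), kd (TensorProduct.map G F) ν p ≤ ∑ k, kd G (ν / l k) p := by
  induction n with
  | zero =>
    intro A _ _ _ F hF hn
    refine ⟨fun k => 0, fun k => k.elim0, fun W _ _ _ G ν p => ?_⟩
    have h1 : finrank E (W ⊗[E] A) = 0 := by
      rw [Module.finrank_tensorProduct, hn, mul_zero]
    have h2 : kd (TensorProduct.map G F) ν p ≤ finrank E (W ⊗[E] A) := Submodule.finrank_le _
    omega
  | succ n ih =>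
    intro A _ _ _ F hF hn
    have : Nontrivial A := Module.nontrivial_of_finrank_pos (R := E) (by omega)
    obtain ⟨μ, hμ⟩ := Module.End.exists_eigenvalue F
    obtain ⟨v, hv⟩ := hμ.exists_hasEigenvector
    have hv0 : v ≠ 0 := hv.2
    have hFv : F v = μ • v := hv.apply_eq_smul
    have hμ0 : μ ≠ 0 := by
      intro h
      rw [h, zero_smul] at hFv
      exact hv0 (hF (by rw [hFv, map_zero]))
    set L : Submodule E A := Submodule.span E {v} with hL
    have hLF : L ≤ L.comap F := by
      rw [hL, Submodule.span_singleton_le_iff_mem, Submodule.mem_comap, hFv]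
      exact Submodule.smul_mem _ _ (Submodule.mem_span_singleton_self v)
    set F' : Module.End E (A ⧸ L) := L.mapQ L F hLF with hF'
    have hFs : Function.Surjective F := LinearMap.injective_iff_surjective.1 hF
    have hFs' : Function.Surjective F' := by
      intro y
      obtain ⟨x, rfl⟩ := L.mkQ_surjective y
      obtain ⟨z, rfl⟩ := hFs x
      exact ⟨L.mkQ z, rfl⟩
    have hF'i : Function.Injective F' := LinearMap.injective_iff_surjective.2 hFs'
    have hn' : finrank E (A ⧸ L) = n := by
      have h1 := Submodule.finrank_quotient_add_finrank L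
      have h4 : finrank E L = 1 := by rw [hL]; exact finrank_span_singleton hv0
      omega
    obtain ⟨l, hl0, hl⟩ := ih (A ⧸ L) F' hF'i hn'
    refine ⟨Fin.cons μ l, fun k => ?_, fun W _ _ _ G ν p => ?_⟩
    · refine Fin.cases ?_ (fun i => ?_) k
      · exact hμ0
      · exact hl0 i
    · rw [Fin.sum_univ_succ]
      simp only [Fin.cons_zero, Fin.cons_succ]
      refine le_trans ?_ (add_le_add (le_of_eq (kd_line G hμ0 ν p)) (hl W G ν p))
      refine kd_tensor_exact (f := LinearMap.toSpanSingleton E A v) (g := L.mkQ) ?_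
        L.mkQ_surjective ?_ (fun x => ?_) (fun y => rfl) G ν p
      · intro x y hxy
        simp only [LinearMap.toSpanSingleton_apply] at hxy
        exact smul_left_injective E hv0 hxy
      · intro y
        rw [Submodule.mkQ_apply, Submodule.Quotient.mk_eq_zero, hL, Submodule.mem_span_singleton]
        simp
      · simp [hFv, smul_smul, mul_comm]

theorem exists_list2 [CharZero E] (A : Type v) [AddCommGroup A] [Module E A]
    [FiniteDimensional E A] (F : Module.End E A) (hF : Function.Injective F) (μ : E) (v : A)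
    (hv : F (F v - μ • v) = μ • (F v - μ • v)) (hv' : F v - μ • v ≠ 0) :
    μ ≠ 0 ∧ 2 ≤ finrank E A ∧ ∃ l : Fin (finrank E A - 2) → E, (∀ k, l k ≠ 0) ∧
      ∀ (W : Type w) [AddCommGroup W] [Module E W] [FiniteDimensional E W] (G : Module.End E W)
        (_ : Function.Injective G) (ν : E) (p : ℕ), kd (TensorProduct.map G F) ν (p + 1) ≤
          (kd G (ν / μ) (p + 2) + kd G (ν / μ) p) + ∑ k, kd G (ν / l k) (p + 1) := by
  set u : A := F v - μ • v with hu
  have hFv : F v = u + μ • v := by rw [hu]; abel
  have hμ0 : μ ≠ 0 := by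
    intro h
    rw [h, zero_smul] at hv
    exact hv' (hF (by rw [hv, map_zero]))
  set f : E × E →ₗ[E] A := LinearMap.coprod (LinearMap.toSpanSingleton E A u)
    (LinearMap.toSpanSingleton E A v) with hf
  have hfa : ∀ s t : E, f (s, t) = s • u + t • v := fun s t => by simp [hf]
  have hfF : ∀ x, f (jb μ x) = F (f x) := by
    rintro ⟨s, t⟩
    have e : jb μ ((s, t) : E × E) = (μ • s + t, μ • t) := rfl
    rw [e, hfa, hfa, map_add, map_smul, map_smul, hv, hFv, smul_add, add_smul, smul_smul, smul_smul,
      smul_eq_mul, smul_eq_mul, mul_comm s μ, mul_comm t μ]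
    abel
  have hfi : Function.Injective f := by
    rw [← LinearMap.ker_eq_bot, LinearMap.ker_eq_bot']
    rintro ⟨s, t⟩ h
    rw [hfa] at h
    have h1 : F (s • u + t • v) - μ • (s • u + t • v) = t • u := by
      rw [map_add, map_smul, map_smul, hv, hFv]
      simp only [smul_add, smul_smul, mul_comm μ]
      abel
    rw [h, map_zero, smul_zero, sub_zero] at h1
    have ht : t = 0 := by
      rcases smul_eq_zero.1 h1.symm with h | h
      · exact h
      · exact absurd h hv'
    rw [ht, zero_smul, add_zero] at h
    have hs : s = 0 := by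
      rcases smul_eq_zero.1 h with h | h
      · exact h
      · exact absurd h hv'
    rw [hs, ht]
    rfl
  set L : Submodule E A := LinearMap.range f with hL
  have hLF : L ≤ L.comap F := by
    rintro _ ⟨x, rfl⟩
    exact ⟨jb μ x, hfF x⟩
  set F' : Module.End E (A ⧸ L) := L.mapQ L F hLF with hF'
  have hFs : Function.Surjective F := LinearMap.injective_iff_surjective.1 hF
  have hFs' : Function.Surjective F' := by
    intro y
    obtain ⟨x, rfl⟩ := L.mkQ_surjective y
    obtain ⟨z, rfl⟩ := hFs x
    exact ⟨L.mkQ z, rfl⟩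
  have hF'i : Function.Injective F' := LinearMap.injective_iff_surjective.2 hFs'
  have h2 : finrank E L = 2 := by
    rw [hL, LinearMap.finrank_range_of_inj hfi]
    simp
  have h3 := Submodule.finrank_quotient_add_finrank L
  have hn' : finrank E (A ⧸ L) = finrank E A - 2 := by omega
  obtain ⟨l, hl0, hl⟩ := exists_list (finrank E A - 2) (A ⧸ L) F' hF'i hn'
  refine ⟨hμ0, by omega, l, hl0, fun W _ _ _ G hG ν p => ?_⟩
  refine le_trans ?_ (add_le_add (kd_jb hG hμ0 ν p) (hl W G ν (p + 1)))
  refine kd_tensor_exact (f := f) (g := L.mkQ) hfi L.mkQ_surjective ?_ hfF (fun y => rfl) G ν (p + 1)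
  intro y
  rw [Submodule.mkQ_apply, Submodule.Quotient.mk_eq_zero]
  rfl

end Pool.Agent.Run7.h731.SE
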