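import Pool.Agent.Run7.h731.SE.Defs
import Pool.Agent.Run7.h731.SE.List

/-!
# First properties of the cohomology
-/

set_option autoImplicit false
set_option linter.unusedSectionVars false

namespace Pool.Agent.Run7.h731.SE

open TensorProduct Module

universe u v w

section Lin

variable {E : Type u} [Field E] {A : Type*} [AddCommGroup A] [Module E A] [FiniteDimensional E A]

theorem kd_eq_genEigenspace (F : Module.End E A) (ν : E) (p : ℕ) :
    kd F ν p = finrank E (F.genEigenspace ν p) := by
  unfold kd
  rw [Module.End.genEigenspace_nat]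

theorem kd_one (F : Module.End E A) (ν : E) : kd F ν 1 = finrank E (F.eigenspace ν) := by
  rw [kd_eq_genEigenspace]
  rfl

theorem kd_max (F : Module.End E A) (ν : E) {p : ℕ} (hp : finrank E A ≤ p) :
    kd F ν p = finrank E (F.maxGenEigenspace ν) := by
  rw [kd_eq_genEigenspace, Module.End.maxGenEigenspace_eq_genEigenspace_finrank,
    Module.End.genEigenspace_eq_genEigenspace_finrank_of_le F ν hp]

theorem kd_le_finrank (F : Module.End E A) (ν : E) (p : ℕ) : kd F ν p ≤ finrank E A :=
  Submodule.finrank_le _

theorem finrank_iSup_le {ι : Type*} (s : Finset ι) (p : ι → Submodule E A) :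
    finrank E (⨆ i ∈ s, p i : Submodule E A) ≤ ∑ i ∈ s, finrank E (p i) := by
  classical
  induction s using Finset.induction_on with
  | empty => simp
  | insert a s ha ih =>
    rw [Finset.sum_insert ha, Finset.iSup_insert]
    exact (Submodule.finrank_add_le_finrank_add_finrank _ _).trans (Nat.add_le_add_left ih _)

/-- the eigenvalues of an injective operator, as units -/
theorem exists_units (F : Module.End E A) (hF : Function.Injective F) : ∃ s : Finset Eˣ,
    ∀ p : ℕ, finrank E (⨆ ν : E, F.genEigenspace ν p : Submodule E A) ≤ ∑ ν ∈ s, kd F (ν : E) p := by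
  classical
  have hfin : {ν : E | F.HasEigenvalue ν}.Finite := Module.End.finite_hasEigenvalue F
  have hfin2 : {ν : Eˣ | F.HasEigenvalue (ν : E)}.Finite := by
    refine Set.Finite.of_injOn (f := fun ν : Eˣ => (ν : E)) (t := {ν : E | F.HasEigenvalue ν})
      (fun ν hν => hν) ?_ hfin
    intro a _ b _ hab
    exact Units.ext hab
  refine ⟨hfin2.toFinset, fun p => ?_⟩
  have h1 : (⨆ ν : E, F.genEigenspace ν p : Submodule E A) ≤
      ⨆ ν ∈ hfin2.toFinset, F.genEigenspace (ν : E) p := by
    refine iSup_le fun ν => ?_
    by_cases h : F.genEigenspace ν p = ⊥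
    · rw [h]
      exact bot_le
    · have hp : 0 < (p : ℕ∞) := by
        rcases Nat.eq_zero_or_pos p with h0 | h0
        · exfalso
          apply h
          rw [h0]
          exact Module.End.genEigenspace_zero
        · exact_mod_cast h0
      have h2 : F.HasEigenvalue ν :=
        (Module.End.hasUnifEigenvalue_iff_hasUnifEigenvalue_one hp).1 h
      have h3 : ν ≠ 0 := by
        rintro rfl
        obtain ⟨x, hx⟩ := h2.exists_hasEigenvector
        have h4 := hx.apply_eq_smul
        rw [zero_smul] at h4
        exact hx.2 (hF (by rw [h4, map_zero]))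
      have h5 : Units.mk0 ν h3 ∈ hfin2.toFinset := by
        rw [Set.Finite.mem_toFinset]
        exact h2
      exact le_iSup₂_of_le (f := fun (ν : Eˣ) (_ : ν ∈ hfin2.toFinset) => F.genEigenspace (ν : E) p)
        (Units.mk0 ν h3) h5 le_rfl
  refine (Submodule.finrank_mono h1).trans ((finrank_iSup_le _ _).trans (le_of_eq ?_))
  exact Finset.sum_congr rfl fun ν _ => (kd_eq_genEigenspace F ν p).symm

theorem exists_jordan [IsAlgClosed E] (F : Module.End E A) (h : ⨆ ν : E, F.eigenspace ν ≠ ⊤) :
    ∃ (μ : E) (v : A), F (F v - μ • v) = μ • (F v - μ • v) ∧ F v - μ • v ≠ 0 := by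
  by_contra hcon
  push Not at hcon
  apply h
  rw [eq_top_iff, ← Module.End.iSup_maxGenEigenspace_eq_top F]
  refine iSup_mono fun μ => ?_
  intro x hx
  rw [Module.End.mem_maxGenEigenspace] at hx
  obtain ⟨k, hk⟩ := hx
  rw [Module.End.mem_eigenspace_iff]
  induction k with
  | zero =>
    rw [pow_zero, Module.End.one_apply] at hk
    rw [hk]
    simp
  | succ k ih =>
    cases k with
    | zero =>
      rw [zero_add, pow_one] at hk
      simp only [LinearMap.sub_apply, LinearMap.smul_apply, Module.End.one_apply] at hk
      exact sub_eq_zero.1 hk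
    | succ k =>
      apply ih
      set y := ((F - μ • (1 : Module.End E A)) ^ k) x with hy
      have h1 : ((F - μ • (1 : Module.End E A)) ^ (k + 1)) x = F y - μ • y := by
        rw [pow_succ', Module.End.mul_apply, ← hy]
        simp
      have h2 : F (F y - μ • y) = μ • (F y - μ • y) := by
        rw [pow_succ', Module.End.mul_apply, h1] at hk
        simp only [LinearMap.sub_apply, LinearMap.smul_apply, Module.End.one_apply] at hk
        exact sub_eq_zero.1 hk
      rw [h1]
      exact hcon μ y h2

end Lin

namespace FrobCohomology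

variable {q : ℕ} {E : Type u} [Field E] (C : FrobCohomology.{u, v, w} q E)

theorem dim_pow (V : C.Var) (n : ℕ) : C.dim (C.pow V n) = n * C.dim V := by
  induction n with
  | zero => rw [zero_mul]; exact C.dim_point
  | succ n ih =>
    have : C.pow V (n + 1) = C.prod (C.pow V n) V := rfl
    rw [this, C.dim_prod, ih]
    ring

theorem finrank_zero {V : C.Var} {r : ℕ} (h : 2 * C.dim V < r) : finrank E (C.H V r) = 0 := by
  have := C.vanishing V r h
  exact Module.finrank_zero_of_subsingleton

theorem finrank_prod (V W : C.Var) (r : ℕ) : finrank E (C.H (C.prod V W) r) =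
    ∑ i ∈ Finset.range (r + 1), finrank E (C.H V i) * finrank E (C.H W (r - i)) := by
  rw [(C.kunneth V W r).finrank_eq, Module.finrank_pi_fintype]
  simp only [Module.finrank_tensorProduct]
  rw [Finset.sum_range]

theorem betti_eq (V : C.Var) {N : ℕ} (hN : 2 * C.dim V + 1 ≤ N) :
    C.betti V = ∑ r ∈ Finset.range N, finrank E (C.H V r) := by
  unfold betti
  refine Finset.sum_subset (Finset.range_mono hN) fun r _ hr => ?_
  rw [Finset.mem_range, not_lt] at hr
  exact C.finrank_zero (by omega)

open Polynomial in
/-- the Poincaré polynomial -/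
noncomputable def poly (V : C.Var) : ℕ[X] :=
  ∑ r ∈ Finset.range (2 * C.dim V + 1), monomial r (finrank E (C.H V r))

open Polynomial in
theorem coeff_poly (V : C.Var) (r : ℕ) : (C.poly V).coeff r = finrank E (C.H V r) := by
  unfold poly
  rw [finsetSum_coeff]
  simp only [coeff_monomial]
  rw [Finset.sum_ite_eq' (Finset.range (2 * C.dim V + 1)) r]
  split_ifs with h
  · rfl
  · rw [Finset.mem_range, not_lt] at h
    exact (C.finrank_zero (by omega)).symm

open Polynomial in
theorem eval_poly (V : C.Var) : (C.poly V).eval 1 = C.betti V := by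
  unfold poly betti
  rw [eval_finsetSum]
  simp

open Polynomial in
theorem poly_prod (V W : C.Var) : C.poly (C.prod V W) = C.poly V * C.poly W := by
  ext r
  rw [coeff_poly, finrank_prod, coeff_mul, Finset.Nat.sum_antidiagonal_eq_sum_range_succ_mk]
  simp only [coeff_poly]

theorem betti_prod (V W : C.Var) : C.betti (C.prod V W) = C.betti V * C.betti W := by
  rw [← eval_poly, poly_prod, Polynomial.eval_mul, eval_poly, eval_poly]

theorem betti_point : C.betti C.point = 1 := by
  unfold betti
  rw [C.dim_point]
  simp [C.finrank_point]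

theorem betti_pow (V : C.Var) (n : ℕ) : C.betti (C.pow V n) = C.betti V ^ n := by
  induction n with
  | zero => rw [pow_zero]; exact C.betti_point
  | succ n ih =>
    have : C.pow V (n + 1) = C.prod (C.pow V n) V := rfl
    rw [this, C.betti_prod, ih, pow_succ]

end FrobCohomology

end Pool.Agent.Run7.h731.SE
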