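import Pool.Agent.Run7.h731.SE.Walk

/-!
# Formal sums of elements of an abelian group
-/

set_option autoImplicit false
set_option linter.unusedSectionVars false

namespace Pool.Agent.Run7.h731.SE

open Finset MonoidAlgebra

variable {Γ : Type*} [CommGroup Γ]

/-- the coefficient -/
def cf (f : MonoidAlgebra ℕ Γ) (g : Γ) : ℕ := f.coeff g

theorem cf_add (f f' : MonoidAlgebra ℕ Γ) (g : Γ) : cf (f + f') g = cf f g + cf f' g := rfl

theorem cf_sum {ι : Type*} (s : Finset ι) (f : ι → MonoidAlgebra ℕ Γ) (g : Γ) :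
    cf (∑ i ∈ s, f i) g = ∑ i ∈ s, cf (f i) g := by
  unfold cf
  rw [MonoidAlgebra.coeff_sum, Finsupp.finsetSum_apply]

theorem cf_nsmul (n : ℕ) (f : MonoidAlgebra ℕ Γ) (g : Γ) : cf (n • f) g = n * cf f g := rfl

theorem cf_single_mul (h : Γ) (f : MonoidAlgebra ℕ Γ) (g : Γ) :
    cf (single h 1 * f) g = cf f (h⁻¹ * g) := by
  unfold cf
  rw [MonoidAlgebra.coeff_single_mul_apply, one_mul]

theorem cf_single [DecidableEq Γ] (h : Γ) (n : ℕ) (g : Γ) :
    cf (single h n) g = if h = g then n else 0 := by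
  unfold cf
  rw [MonoidAlgebra.coeff_single, Finsupp.single_apply]

theorem cf_one [DecidableEq Γ] (g : Γ) : cf (1 : MonoidAlgebra ℕ Γ) g = if 1 = g then 1 else 0 := by
  rw [MonoidAlgebra.one_def, cf_single]

/-- the sum of the coefficients -/
noncomputable def aug : MonoidAlgebra ℕ Γ →ₐ[ℕ] ℕ := MonoidAlgebra.lift ℕ ℕ Γ 1

theorem aug_single (h : Γ) (n : ℕ) : aug (single h n) = n := by
  unfold aug
  rw [MonoidAlgebra.lift_single]
  simp

theorem aug_eq (f : MonoidAlgebra ℕ Γ) : aug f = ∑ g ∈ f.coeff.support, cf f g := by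
  unfold aug
  rw [MonoidAlgebra.lift_apply, Finsupp.sum]
  refine Finset.sum_congr rfl fun g _ => ?_
  simp [cf]

theorem sum_le_aug (F : Finset Γ) (f : MonoidAlgebra ℕ Γ) : ∑ g ∈ F, cf f g ≤ aug f := by
  classical
  rw [aug_eq]
  refine (Finset.sum_le_sum_of_subset (h := (Finset.subset_union_left : F ⊆ F ∪ f.coeff.support))
    ).trans ?_
  rw [Finset.sum_subset (Finset.subset_union_right : f.coeff.support ⊆ F ∪ f.coeff.support)]
  intro g _ hg
  exact Finsupp.notMem_support_iff.1 hg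

theorem cf_le_aug (f : MonoidAlgebra ℕ Γ) (g : Γ) : cf f g ≤ aug f := by
  have := sum_le_aug {g} f
  simpa using this

section Chain

variable {κ : Type*} [Fintype κ] (g₀ : Γ) (γ : κ → Γ)

/-- the sum of the `γ k` -/
noncomputable def rest : MonoidAlgebra ℕ Γ := ∑ k, single (γ k) 1

/-- the sum of all generators -/
noncomputable def chi : MonoidAlgebra ℕ Γ := 2 • single g₀ 1 + rest γ

theorem cf_rest_mul (f : MonoidAlgebra ℕ Γ) (g : Γ) :
    cf (rest γ * f) g = ∑ k, cf f ((γ k)⁻¹ * g) := by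
  unfold rest
  rw [Finset.sum_mul, cf_sum]
  exact Finset.sum_congr rfl fun k _ => cf_single_mul _ _ _

theorem aug_rest : aug (rest γ) = Fintype.card κ := by
  unfold rest
  rw [map_sum]
  simp [aug_single]

theorem aug_chi : aug (chi g₀ γ) = Fintype.card κ + 2 := by
  unfold chi
  rw [map_add, map_nsmul, aug_single, aug_rest]
  ring

theorem chain [DecidableEq Γ] (X : ℕ → ℕ → Γ → ℕ) (h0 : ∀ p g, X 0 p g ≤ if 1 = g then 1 else 0)
    (hX0 : ∀ n g, X n 0 g = 0)
    (hX : ∀ n p g, X (n + 1) (p + 1) g ≤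
      (X n (p + 2) (g₀⁻¹ * g) + X n p (g₀⁻¹ * g)) + ∑ k, X n (p + 1) ((γ k)⁻¹ * g)) (n p : ℕ) (g : Γ) :
    X n p g ≤ cf (sol (single g₀ 1) (rest γ) n p) g := by
  induction n generalizing p g with
  | zero =>
    cases p with
    | zero => rw [hX0]; exact Nat.zero_le _
    | succ p =>
      rw [sol_zero, cf_one]
      exact h0 _ _
  | succ n ih =>
    cases p with
    | zero => rw [hX0]; exact Nat.zero_le _
    | succ p =>
      rw [sol_succ, cf_add, cf_single_mul, cf_add, cf_rest_mul]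
      exact (hX n p g).trans (add_le_add (add_le_add (ih _ _) (ih _ _))
        (Finset.sum_le_sum fun k _ => ih _ _))

theorem cf_sol (n p : ℕ) (g : Γ) : cf (sol (single g₀ 1) (rest γ) n p) g =
    ∑ j ∈ range (n + 1), n.choose j * ew j p * cf (single g₀ 1 ^ j * rest γ ^ (n - j)) g := by
  unfold sol
  rw [cf_sum]
  exact Finset.sum_congr rfl fun j _ => cf_nsmul _ _ _

theorem aug_sol (n p : ℕ) : aug (sol (single g₀ 1) (rest γ) n p) =
    ∑ j ∈ range (n + 1), n.choose j * ew j p * Fintype.card κ ^ (n - j) := by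
  unfold sol
  rw [map_sum]
  refine Finset.sum_congr rfl fun j _ => ?_
  rw [map_nsmul, map_mul, map_pow, map_pow, aug_single, aug_rest]
  simp

theorem chi_pow (n : ℕ) : chi g₀ γ ^ n =
    ∑ j ∈ range (n + 1), (n.choose j * 2 ^ j) • (single g₀ 1 ^ j * rest γ ^ (n - j)) := by
  unfold chi
  rw [add_pow]
  refine Finset.sum_congr rfl fun j _ => ?_
  simp only [nsmul_eq_mul]
  push_cast
  ring

theorem cf_chi_pow (n : ℕ) (g : Γ) : cf (chi g₀ γ ^ n) g =
    ∑ j ∈ range (n + 1), n.choose j * 2 ^ j * cf (single g₀ 1 ^ j * rest γ ^ (n - j)) g := by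
  rw [chi_pow, cf_sum]
  exact Finset.sum_congr rfl fun j _ => cf_nsmul _ _ _

theorem cf_sol_le (n p : ℕ) (g : Γ) :
    cf (sol (single g₀ 1) (rest γ) n p) g ≤ cf (chi g₀ γ ^ n) g := by
  rw [cf_sol, cf_chi_pow]
  refine Finset.sum_le_sum fun j _ => ?_
  gcongr
  exact ew_le j p

/-- the bound for the number of eigenvectors -/
theorem aug_sol_sq (n : ℕ) : (aug (sol (single g₀ 1) (rest γ) n 1)) ^ 2 * (2 * (n + 1)) ≤
    (Fintype.card κ + 2) ^ (2 * n + 1) := by
  rw [aug_sol]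
  set m := Fintype.card κ with hm
  have h1 : ((∑ j ∈ range (n + 1), n.choose j * ew j 1 * m ^ (n - j) : ℕ) : ℝ) ^ 2 ≤
      (∑ j ∈ range (n + 1), (n.choose j : ℝ) * 2 ^ j * m ^ (n - j)) *
        ∑ j ∈ range (n + 1), (n.choose j : ℝ) * 2 ^ j * m ^ (n - j) * (1 / (j + 1)) := by
    push_cast
    refine (Finset.sum_sq_le_sum_mul_sum_of_sq_le_mul (range (n + 1))
      (f := fun j => (n.choose j : ℝ) * 2 ^ j * m ^ (n - j))
      (g := fun j => (n.choose j : ℝ) * (ew j 1 ^ 2 / 2 ^ j) * m ^ (n - j))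
      (fun j _ => by positivity) (fun j _ => by positivity) (fun j _ => ?_)).trans ?_
    · refine le_of_eq ?_
      field_simp
    · refine mul_le_mul_of_nonneg_left ?_ (Finset.sum_nonneg fun j _ => by positivity)
      refine Finset.sum_le_sum fun j _ => ?_
      have h2 : ((ew j 1 : ℝ) ^ 2) * (j + 1) ≤ 4 ^ j := by exact_mod_cast ew_one_sq j
      have h3 : ((ew j 1 : ℝ) ^ 2 / 2 ^ j) ≤ 2 ^ j * (1 / (j + 1)) := by
        rw [div_le_iff₀ (by positivity), mul_one_div, div_mul_eq_mul_div, le_div_iff₀ (by positivity)]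
        refine h2.trans (le_of_eq ?_)
        rw [← mul_pow]
        norm_num
      calc (n.choose j : ℝ) * (ew j 1 ^ 2 / 2 ^ j) * m ^ (n - j)
          ≤ (n.choose j : ℝ) * (2 ^ j * (1 / (j + 1))) * m ^ (n - j) := by gcongr
        _ = _ := by ring
  have h4 : ∑ j ∈ range (n + 1), (n.choose j : ℝ) * 2 ^ j * m ^ (n - j) = ((m : ℝ) + 2) ^ n := by
    rw [add_comm (m : ℝ) 2, add_pow]
    refine Finset.sum_congr rfl fun j _ => ?_
    ring
  have h5 : (∑ j ∈ range (n + 1), (n.choose j : ℝ) * 2 ^ j * m ^ (n - j) * (1 / (j + 1))) *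
      (2 * (n + 1)) ≤ ((m : ℝ) + 2) ^ (n + 1) := by
    rw [Finset.sum_mul, add_comm (m : ℝ) 2, add_pow, Finset.sum_range_succ' _ (n + 1)]
    refine le_trans ?_ (le_add_of_nonneg_right (by positivity))
    refine Finset.sum_le_sum fun j hj => ?_
    have h6 : ((n + 1 : ℕ) : ℝ) * (n.choose j : ℝ) = ((n + 1).choose (j + 1) : ℝ) * ((j + 1 : ℕ) : ℝ) := by
      exact_mod_cast Nat.add_one_mul_choose_eq n j
    push_cast at h6
    have h7 : n + 1 - (j + 1) = n - j := by omega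
    rw [h7]
    have h8 : (n.choose j : ℝ) * 2 ^ j * m ^ (n - j) * (1 / (j + 1)) * (2 * (n + 1)) =
        (((n : ℝ) + 1) * n.choose j) * (2 ^ (j + 1) * m ^ (n - j)) / (j + 1) := by
      rw [pow_succ]
      field_simp
    rw [h8, h6]
    have h9 : (0 : ℝ) < (j : ℝ) + 1 := by positivity
    rw [div_le_iff₀ h9]
    refine le_of_eq ?_
    ring
  have h10 : (((∑ j ∈ range (n + 1), n.choose j * ew j 1 * m ^ (n - j) : ℕ) : ℝ) ^ 2) *
      (2 * (n + 1)) ≤ ((m : ℝ) + 2) ^ (2 * n + 1) := by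
    calc _ ≤ ((∑ j ∈ range (n + 1), (n.choose j : ℝ) * 2 ^ j * m ^ (n - j)) *
        ∑ j ∈ range (n + 1), (n.choose j : ℝ) * 2 ^ j * m ^ (n - j) * (1 / (j + 1))) *
          (2 * (n + 1)) := by gcongr
      _ = ((m : ℝ) + 2) ^ n * ((∑ j ∈ range (n + 1), (n.choose j : ℝ) * 2 ^ j * m ^ (n - j) *
          (1 / (j + 1))) * (2 * (n + 1))) := by rw [h4]; ring
      _ ≤ ((m : ℝ) + 2) ^ n * ((m : ℝ) + 2) ^ (n + 1) := by gcongr
      _ = _ := by ring
  exact_mod_cast h10

end Chain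

end Pool.Agent.Run7.h731.SE
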