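import Mathlib

/-!
# The cohomology of varieties over a finite field, with its Frobenius: the definitions of the statement
-/

set_option autoImplicit false

namespace Pool.Agent.Run7.h731.SE

open TensorProduct Module

universe u v w

/-- a finite dimensional vector space over `E` with a bijective operator `F` -/
structure FSpace (E : Type u) [Field E] where
  /-- the space -/
  X : Type w
  [acg : AddCommGroup X]
  [mod : Module E X]
  [fin : FiniteDimensional E X]
  /-- the Frobenius -/
  F : Module.End E X
  /-- the Frobenius is bijective -/
  bij : Function.Bijective F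

attribute [instance] FSpace.acg FSpace.mod FSpace.fin

namespace FSpace

variable {E : Type u} [Field E]

/-- there is an isomorphism of `A` with `B` compatible with `F` -/
def Isom (A B : FSpace.{u, w} E) : Prop := ∃ e : A.X ≃ₗ[E] B.X, ∀ x, e (A.F x) = B.F (e x)

theorem map_bijective {A B : Type w} [AddCommGroup A] [Module E A] [AddCommGroup B] [Module E B]
    {F : Module.End E A} {G : Module.End E B} (hF : Function.Bijective F)
    (hG : Function.Bijective G) : Function.Bijective (TensorProduct.map F G) :=
  (TensorProduct.congr (LinearEquiv.ofBijective F hF) (LinearEquiv.ofBijective G hG)).bijective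

/-- the tensor product, with `F ⊗ F` -/
noncomputable def tensor (A B : FSpace.{u, w} E) : FSpace.{u, w} E where
  X := A.X ⊗[E] B.X
  F := TensorProduct.map A.F B.F
  bij := map_bijective A.bij B.bij

theorem pi_bijective {n : ℕ} (A : Fin n → FSpace.{u, w} E) :
    Function.Bijective (LinearMap.pi fun i => (A i).F.comp (LinearMap.proj i) :
      Module.End E (∀ i, (A i).X)) := by
  refine ⟨fun x y h => ?_, fun y => ?_⟩
  · funext i
    exact (A i).bij.1 (congrFun h i)
  · choose x hx using fun i => (A i).bij.2 (y i)
    exact ⟨x, funext hx⟩

/-- the direct sum of `n` spaces -/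
noncomputable def pi {n : ℕ} (A : Fin n → FSpace.{u, w} E) : FSpace.{u, w} E where
  X := ∀ i, (A i).X
  F := LinearMap.pi fun i => (A i).F.comp (LinearMap.proj i)
  bij := pi_bijective A

/-- there is a perfect pairing of `A` and `B` with `(F x, F y) = c (x, y)` -/
def Dual (c : E) (A B : FSpace.{u, w} E) : Prop :=
  ∃ D : B.X ≃ₗ[E] Module.Dual E A.X, ∀ y x, D (B.F y) (A.F x) = c * D y x

/-- `F` is semisimple: it is diagonalisable, that is, its eigenvectors span the space -/
def Semisimple (A : FSpace.{u, w} E) : Prop := ⨆ ν : E, A.F.eigenspace ν = ⊤

/-- The Jordan blocks of `F` have size at most `k`: each `x` which is killed by a power of `F - ν` is killed by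
`(F - ν) ^ k`. -/
def BlocksLe (A : FSpace.{u, w} E) (k : ℕ) : Prop :=
  ∀ ν : E, A.F.maxGenEigenspace ν ≤ A.F.genEigenspace ν k

/-- the dimension -/
noncomputable def dim (A : FSpace.{u, w} E) : ℕ := finrank E A.X

/-- the dimension of the span of the eigenvectors of `F`, which is also the number of its Jordan blocks -/
noncomputable def eigen (A : FSpace.{u, w} E) : ℕ :=
  finrank E (⨆ ν : E, A.F.eigenspace ν : Submodule E A.X)

/-- the dimension of the space of the `x` with `F x = ν x` -/
noncomputable def eig (A : FSpace.{u, w} E) (ν : E) : ℕ := finrank E (A.F.eigenspace ν)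

/-- the dimension of the space of the `x` with `(F - ν) ^ k x = 0` for some `k` -/
noncomputable def gen (A : FSpace.{u, w} E) (ν : E) : ℕ := finrank E (A.F.maxGenEigenspace ν)

end FSpace

/-- The `ℓ`-adic cohomology, with coefficients in a field `E` (an algebraic closure of `ℚ_ℓ`), of a class of smooth
projective varieties over the field with `q` elements which is closed under products: `H V r` is
`H ^ r (V̄, ℚ_ℓ) ⊗ E` with the Frobenius. -/
structure Cohomology (q : ℕ) (E : Type u) [Field E] where
  /-- the smooth projective varieties of the class -/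
  Var : Type v
  /-- the dimension -/
  dim : Var → ℕ
  /-- the cohomology groups with their Frobenius -/
  H : Var → ℕ → FSpace.{u, w} E
  /-- the cohomology vanishes above the degree `2 dim V` -/
  vanishing : ∀ V r, 2 * dim V < r → (H V r).dim = 0
  /-- the point -/
  point : Var
  dim_point : dim point = 0
  finrank_point : (H point 0).dim = 1
  frob_point : (H point 0).F = 1
  /-- the product of two varieties -/
  prod : Var → Var → Var
  dim_prod : ∀ V W, dim (prod V W) = dim V + dim W
  /-- the Künneth formula: `H ^ r (V × W)` is the direct sum of the `H ^ i (V) ⊗ H ^ (r - i) (W)` -/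
  kunneth : ∀ V W r, (H (prod V W) r).Isom
    (FSpace.pi fun i : Fin (r + 1) => (H V i).tensor (H W (r - i)))
  /-- Poincaré duality: the cup product of the images of two classes of complementary degree under the Frobenius is
  `q ^ dim V` times the cup product of the classes -/
  duality : ∀ V r s, r + s = 2 * dim V → FSpace.Dual ((q : E) ^ dim V) (H V r) (H V s)

namespace Cohomology

variable {q : ℕ} {E : Type u} [Field E] (C : Cohomology.{u, v, w} q E)

/-- The Frobenius acts semisimply on `H ^ r (V̄, ℚ_ℓ)`. -/
def Semisimple (V : C.Var) (r : ℕ) : Prop := (C.H V r).Semisimple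

/-- the sum of the Betti numbers of `V` -/
noncomputable def betti (V : C.Var) : ℕ := ∑ r ∈ Finset.range (2 * C.dim V + 1), (C.H V r).dim

/-- the dimension of the subspace of the cohomology of `V` (all degrees) which is spanned by the
eigenvectors of the Frobenius; it is also the number of its Jordan blocks -/
noncomputable def eigenDim (V : C.Var) : ℕ :=
  ∑ r ∈ Finset.range (2 * C.dim V + 1), (C.H V r).eigen

/-- the dimension of the space of the Tate classes, the `x ∈ H ^ (2 m) (V)`, all `m`, with
`F x = q ^ m x` -/
noncomputable def tateDim (V : C.Var) : ℕ :=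
  ∑ m ∈ Finset.range (C.dim V + 1), (C.H V (2 * m)).eig ((q : E) ^ m)

/-- the dimension of the space of the generalized Tate classes, the `x ∈ H ^ (2 m) (V)`, all `m`, with
`(F - q ^ m) ^ k x = 0` for some `k`; it is the sum of the orders of the poles of the zeta function of `V` at the
points `0, …, dim V` -/
noncomputable def genTateDim (V : C.Var) : ℕ :=
  ∑ m ∈ Finset.range (C.dim V + 1), (C.H V (2 * m)).gen ((q : E) ^ m)

/-- the power `V ^ n` -/
def pow (V : C.Var) : ℕ → C.Var
  | 0 => C.point
  | n + 1 => C.prod (pow V n) V

/-- the conclusions for the powers of a variety with semisimple Frobenius -/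
structure Full (V : C.Var) : Prop where
  /-- the Frobenius of `V ^ n` is semisimple in each degree -/
  semisimple : ∀ (n r : ℕ), C.Semisimple (C.pow V n) r
  /-- the eigenvectors span the cohomology of `V ^ n` -/
  eigen : ∀ n : ℕ, C.eigenDim (C.pow V n) = C.betti (C.pow V n)
  /-- the generalized Tate classes on `V ^ n` are Tate classes -/
  tate : ∀ n : ℕ, C.tateDim (C.pow V n) = C.genTateDim (C.pow V n)

/-- the conclusions for the powers of a variety whose Frobenius is not semisimple -/
structure Sparse (V : C.Var) : Prop where
  /-- the proportion of the eigenvectors in the cohomology of `V ^ n` is at most `(b / (2 (n + 1))) ^ (1 / 2)`, where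
  `b` is the sum of the Betti numbers of `V` -/
  eigen : ∀ n : ℕ, (C.eigenDim (C.pow V n) : ℝ) / C.betti (C.pow V n) ≤
    Real.sqrt (C.betti V / (2 * (n + 1)))
  /-- the Frobenius has a Jordan block of size more than `n` on the cohomology of `V ^ n` -/
  block : ∀ n : ℕ, ∃ r, ¬ (C.H (C.pow V n) r).BlocksLe n
  /-- there are generalized Tate classes on `V ^ (2 N)` -/
  pos : ∀ N : ℕ, 0 < C.genTateDim (C.pow V (2 * N))
  /-- the proportion of the Tate classes among the generalized Tate classes on `V ^ (2 N)` tends to `0` -/
  tate : Filter.Tendsto
    (fun N : ℕ => (C.tateDim (C.pow V (2 * N)) : ℝ) / C.genTateDim (C.pow V (2 * N)))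
    Filter.atTop (nhds 0)

/-- for each `V`, the eigenvectors of Frobenius span at least the proportion `φ V` of the cohomology of `V` -/
def EigenProportion (φ : C.Var → ℝ) : Prop := ∀ V : C.Var, φ V * C.betti V ≤ C.eigenDim V

/-- for each `V`, the Tate classes form at least the proportion `ε` of the generalized Tate classes -/
def TateProportion (ε : ℝ) : Prop := ∀ V : C.Var, ε * C.genTateDim V ≤ C.tateDim V

end Cohomology

/-- `f` tends to infinity -/
def ToInfinity (f : ℕ → ℝ) : Prop := Filter.Tendsto f Filter.atTop Filter.atTop

end Pool.Agent.Run7.h731.SE
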