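import Pool.Agent.Run7.h731.SE.Alg

/-!
# The proportion of the eigenvectors among the generalized Tate classes tends to zero
-/

set_option autoImplicit false
set_option linter.unusedSectionVars false

namespace Pool.Agent.Run7.h731.SE

open Finset MonoidAlgebra Filter Topology

variable {Γ : Type*} [CommGroup Γ]

theorem cf_mul (f f' : MonoidAlgebra ℕ Γ) (g : Γ) :
    cf (f * f') g = ∑ a ∈ f.coeff.support, cf f a * cf f' (a⁻¹ * g) := by
  unfold cf
  rw [MonoidAlgebra.coeff_mul_apply_left, Finsupp.sum]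

variable {κ : Type*} [Fintype κ] (g₀ : Γ) (γ : κ → Γ)

theorem chi_eq : chi g₀ γ = rest (Sum.elim γ (fun _ : Bool => g₀)) := by
  unfold chi rest
  rw [Fintype.sum_sum_type]
  simp only [Sum.elim_inl, Sum.elim_inr, Finset.sum_const, Finset.card_univ, Fintype.card_bool]
  rw [add_comm]

theorem support_pow [DecidableEq Γ] {ι : Type*} [Fintype ι] [DecidableEq ι] (δ : ι → Γ) (N : ℕ)
    (g : Γ) (h : cf (rest δ ^ N) g ≠ 0) : ∃ c : ι → ℕ, (∀ k, c k ≤ N) ∧ ∏ k, δ k ^ c k = g := by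
  induction N generalizing g with
  | zero =>
    rw [pow_zero, cf_one] at h
    have hg : 1 = g := by
      by_contra hne
      exact h (if_neg hne)
    exact ⟨fun _ => 0, fun _ => le_rfl, by rw [← hg]; simp⟩
  | succ N ih =>
    rw [pow_succ', cf_rest_mul] at h
    obtain ⟨k, _, hk⟩ := Finset.exists_ne_zero_of_sum_ne_zero h
    obtain ⟨c, hc, hcg⟩ := ih _ hk
    refine ⟨fun i => c i + if i = k then 1 else 0, fun i => ?_, ?_⟩
    · have := hc i
      dsimp only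
      split_ifs <;> omega
    · simp only [pow_add, Finset.prod_mul_distrib, hcg]
      simp

theorem card_support_pow {ι : Type*} [Fintype ι] (δ : ι → Γ) (N : ℕ) :
    (rest δ ^ N).coeff.support.card ≤ (N + 1) ^ Fintype.card ι := by
  classical
  have h1 : (rest δ ^ N).coeff.support ⊆
      (Fintype.piFinset fun _ : ι => range (N + 1)).image fun c => ∏ k, δ k ^ c k := by
    intro g hg
    obtain ⟨c, hc, hcg⟩ := support_pow δ N g (Finsupp.mem_support_iff.1 hg)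
    rw [Finset.mem_image]
    exact ⟨c, Fintype.mem_piFinset.2 fun k => Finset.mem_range.2 (Nat.lt_succ_of_le (hc k)), hcg⟩
  refine (Finset.card_le_card h1).trans (Finset.card_image_le.trans (le_of_eq ?_))
  rw [Fintype.card_piFinset]
  simp

theorem symm_pow {f : MonoidAlgebra ℕ Γ} {t : Γ} (hf : ∀ g, cf f (t * g⁻¹) = cf f g) (N : ℕ) (g : Γ) :
    cf (f ^ N) (t ^ N * g⁻¹) = cf (f ^ N) g := by
  classical
  induction N generalizing g with
  | zero =>
    rw [pow_zero, pow_zero, cf_one, cf_one, one_mul]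
    have h : (1 = g⁻¹) ↔ (1 = g) :=
      ⟨fun h => by rw [← inv_inv g, ← h, inv_one], fun h => by rw [← h, inv_one]⟩
    simp only [h]
  | succ N ih =>
    rw [pow_succ', cf_mul, cf_mul]
    have hs : ∀ a, a ∈ f.coeff.support → t * a⁻¹ ∈ f.coeff.support := by
      intro a ha
      rw [Finsupp.mem_support_iff] at ha ⊢
      exact (hf a).trans_ne ha
    have hi : ∀ a : Γ, t * (t * a⁻¹)⁻¹ = a := by
      intro a
      rw [mul_inv_rev, inv_inv, mul_left_comm, mul_inv_cancel, mul_one]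
    refine Finset.sum_nbij' (fun a => t * a⁻¹) (fun a => t * a⁻¹) hs hs (fun a _ => hi a)
      (fun a _ => hi a) (fun a _ => ?_)
    rw [hf, ← ih ((t * a⁻¹)⁻¹ * g)]
    congr 2
    rw [mul_inv_rev, inv_inv, pow_succ]
    ac_rfl

theorem lower {t : Γ} (ht : ∀ g, cf (chi g₀ γ) (t * g⁻¹) = cf (chi g₀ γ) g) (N : ℕ) :
    (Fintype.card κ + 2) ^ (2 * N) ≤
      (N + 1) ^ (Fintype.card κ + 2) * cf (chi g₀ γ ^ (2 * N)) (t ^ N) := by
  classical
  have h1 : cf (chi g₀ γ ^ (2 * N)) (t ^ N) =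
      ∑ a ∈ (chi g₀ γ ^ N).coeff.support, cf (chi g₀ γ ^ N) a ^ 2 := by
    rw [two_mul, pow_add, cf_mul]
    refine Finset.sum_congr rfl fun a _ => ?_
    rw [mul_comm a⁻¹, symm_pow ht, sq]
  have h2 : (∑ a ∈ (chi g₀ γ ^ N).coeff.support, cf (chi g₀ γ ^ N) a) ^ 2 ≤
      (chi g₀ γ ^ N).coeff.support.card * ∑ a ∈ (chi g₀ γ ^ N).coeff.support,
        cf (chi g₀ γ ^ N) a ^ 2 := sq_sum_le_card_mul_sum_sq
  rw [← aug_eq, map_pow, aug_chi] at h2
  have h3 : (chi g₀ γ ^ N).coeff.support.card ≤ (N + 1) ^ (Fintype.card κ + 2) := by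
    rw [chi_eq]
    refine (card_support_pow _ N).trans (le_of_eq ?_)
    simp
  rw [h1, mul_comm 2 N, pow_mul]
  exact h2.trans (Nat.mul_le_mul_right _ h3)

theorem lim_poly (k j : ℕ) {ρ : ℝ} (h0 : 0 ≤ ρ) (h1 : ρ < 1) :
    Tendsto (fun n : ℕ => ((n : ℝ) + j + 1) ^ k * ρ ^ n) atTop (𝓝 0) := by
  have h2 : Tendsto (fun n : ℕ => ((j : ℝ) + 2) ^ k * ((n : ℝ) ^ k * ρ ^ n)) atTop (𝓝 0) := by
    have := (tendsto_pow_const_mul_const_pow_of_abs_lt_one k
      (r := ρ) (by rw [abs_of_nonneg h0]; exact h1)).const_mul (((j : ℝ) + 2) ^ k)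
    simpa using this
  refine squeeze_zero' (Eventually.of_forall fun n => by positivity) ?_ h2
  filter_upwards [eventually_ge_atTop 1] with n hn
  rw [← mul_assoc, ← mul_pow]
  refine mul_le_mul_of_nonneg_right (pow_le_pow_left₀ (by positivity) ?_ k) (by positivity)
  have h3 : (1 : ℝ) ≤ n := by exact_mod_cast hn
  have h4 : (0 : ℝ) ≤ j := by positivity
  nlinarith

theorem upper (j₀ n : ℕ) (F : Finset Γ) :
    ((∑ g ∈ F, cf (sol (single g₀ 1) (rest γ) n 1) g : ℕ) : ℝ) ≤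
      (∑ j ∈ range j₀, (n.choose j : ℝ) * 2 ^ j * (Fintype.card κ : ℝ) ^ (n - j)) +
        1 / Real.sqrt (j₀ + 1) * ((∑ g ∈ F, cf (chi g₀ γ ^ n) g : ℕ) : ℝ) := by
  set m := Fintype.card κ with hm
  set τ : ℕ → ℕ := fun j => ∑ g ∈ F, cf (single g₀ 1 ^ j * rest γ ^ (n - j)) g with hτ
  have e1 : ∑ g ∈ F, cf (sol (single g₀ 1) (rest γ) n 1) g =
      ∑ j ∈ range (n + 1), n.choose j * ew j 1 * τ j := by
    rw [hτ]
    simp only [cf_sol]
    rw [Finset.sum_comm]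
    refine Finset.sum_congr rfl fun j _ => ?_
    rw [Finset.mul_sum]
  have e2 : ∑ g ∈ F, cf (chi g₀ γ ^ n) g = ∑ j ∈ range (n + 1), n.choose j * 2 ^ j * τ j := by
    rw [hτ]
    simp only [cf_chi_pow]
    rw [Finset.sum_comm]
    refine Finset.sum_congr rfl fun j _ => ?_
    rw [Finset.mul_sum]
  have h1 : ∀ j, τ j ≤ m ^ (n - j) := by
    intro j
    refine (sum_le_aug F _).trans (le_of_eq ?_)
    rw [map_mul, map_pow, map_pow, aug_single, aug_rest, one_pow, one_mul]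
  have hs : (0 : ℝ) < Real.sqrt (j₀ + 1) := Real.sqrt_pos.2 (by positivity)
  have h2 : ∀ j, j₀ ≤ j → (ew j 1 : ℝ) ≤ 1 / Real.sqrt (j₀ + 1) * 2 ^ j := by
    intro j hj
    have h3 : ((ew j 1 : ℝ) * Real.sqrt (j₀ + 1)) ^ 2 ≤ (2 ^ j) ^ 2 := by
      rw [mul_pow, Real.sq_sqrt (by positivity)]
      have h4 : ((ew j 1 : ℝ) ^ 2) * (j + 1) ≤ 4 ^ j := by exact_mod_cast ew_one_sq j
      have h5 : (j₀ : ℝ) ≤ j := by exact_mod_cast hj
      calc ((ew j 1 : ℝ) ^ 2) * (j₀ + 1) ≤ ((ew j 1 : ℝ) ^ 2) * (j + 1) := by gcongr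
        _ ≤ 4 ^ j := h4
        _ = _ := by rw [← pow_mul, mul_comm j 2, pow_mul]; norm_num
    have h6 := le_of_sq_le_sq h3 (by positivity)
    rw [one_div, inv_mul_eq_div, le_div_iff₀ hs]
    exact h6
  rw [e1, e2]
  push_cast
  rw [Finset.mul_sum]
  have h7 : ∀ j ∈ range (n + 1), (n.choose j : ℝ) * ew j 1 * τ j ≤
      (if j < j₀ then (n.choose j : ℝ) * 2 ^ j * (m : ℝ) ^ (n - j) else 0) +
        1 / Real.sqrt (j₀ + 1) * ((n.choose j : ℝ) * 2 ^ j * τ j) := by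
    intro j _
    split_ifs with hj
    · refine le_trans ?_ (le_add_of_nonneg_right (by positivity))
      have h8 : (ew j 1 : ℝ) ≤ 2 ^ j := by exact_mod_cast ew_le j 1
      have h9 : (τ j : ℝ) ≤ (m : ℝ) ^ (n - j) := by exact_mod_cast h1 j
      gcongr
    · rw [zero_add]
      calc (n.choose j : ℝ) * ew j 1 * τ j ≤
          (n.choose j : ℝ) * (1 / Real.sqrt (j₀ + 1) * 2 ^ j) * τ j := by
            gcongr
            exact h2 j (by omega)
        _ = _ := by ring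
  refine (Finset.sum_le_sum h7).trans ?_
  rw [Finset.sum_add_distrib]
  refine add_le_add ?_ le_rfl
  rw [← Finset.sum_filter]
  refine Finset.sum_le_sum_of_subset_of_nonneg (fun j hj => ?_) (fun j _ _ => by positivity)
  rw [Finset.mem_filter] at hj
  exact Finset.mem_range.2 hj.2

/-- the limit -/
theorem limit {t : Γ} (ht : ∀ g, cf (chi g₀ γ) (t * g⁻¹) = cf (chi g₀ γ) g) (F : ℕ → Finset Γ)
    (hF : ∀ N, t ^ N ∈ F N) :
    (∀ N, 0 < ∑ g ∈ F N, cf (chi g₀ γ ^ (2 * N)) g) ∧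
    Tendsto (fun N : ℕ => ((∑ g ∈ F N, cf (sol (single g₀ 1) (rest γ) (2 * N) 1) g : ℕ) : ℝ) /
      ((∑ g ∈ F N, cf (chi g₀ γ ^ (2 * N)) g : ℕ) : ℝ)) atTop (𝓝 0) := by
  set m := Fintype.card κ with hm
  set D : ℕ → ℕ := fun N => ∑ g ∈ F N, cf (chi g₀ γ ^ (2 * N)) g with hD
  have hlow : ∀ N, (m + 2) ^ (2 * N) ≤ (N + 1) ^ (m + 2) * D N := by
    intro N
    refine (lower g₀ γ ht N).trans (Nat.mul_le_mul_left _ ?_)
    exact Finset.single_le_sum (f := fun g => cf (chi g₀ γ ^ (2 * N)) g) (fun _ _ => Nat.zero_le _)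
      (hF N)
  have hpos : ∀ N, 0 < D N := by
    intro N
    rcases Nat.eq_zero_or_pos (D N) with h | h
    · have h1 := hlow N
      rw [h, mul_zero] at h1
      have h2 : 0 < (m + 2) ^ (2 * N) := by positivity
      omega
    · exact h
  refine ⟨hpos, ?_⟩
  have hb : (0 : ℝ) < (m : ℝ) + 2 := by positivity
  set ρ : ℝ := (m : ℝ) / (m + 2) with hρ
  have hρ0 : 0 ≤ ρ := by positivity
  have hρ1 : ρ < 1 := by
    rw [hρ, div_lt_one hb]
    linarith
  -- the small terms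
  have hsmall : ∀ j : ℕ, Tendsto (fun N : ℕ => (((2 * N).choose j : ℝ) * 2 ^ j *
      (m : ℝ) ^ (2 * N - j)) / D N) atTop (𝓝 0) := by
    intro j
    have h1 : Tendsto (fun N : ℕ => (((2 * N - j : ℕ) : ℝ) + j + 1) ^ (m + 2 + j) *
        ρ ^ (2 * N - j)) atTop (𝓝 0) := by
      refine (lim_poly (m + 2 + j) j hρ0 hρ1).comp (tendsto_atTop.2 fun B => ?_)
      filter_upwards [eventually_ge_atTop (B + j)] with N hN
      omega
    refine squeeze_zero' (Eventually.of_forall fun N => by positivity) ?_ h1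
    filter_upwards [eventually_ge_atTop j] with N hN
    have h2 : (0 : ℝ) < D N := by exact_mod_cast hpos N
    rw [div_le_iff₀ h2]
    have h3 : ((m : ℝ) + 2) ^ (2 * N) ≤ ((N : ℝ) + 1) ^ (m + 2) * D N := by exact_mod_cast hlow N
    have e : (((2 * N - j : ℕ) : ℝ) + j + 1) = 2 * N + 1 := by
      rw [Nat.cast_sub (by omega)]
      push_cast
      ring
    rw [e]
    have h4 : (((2 * N).choose j : ℕ) : ℝ) ≤ (2 * N + 1) ^ j := by
      have : (2 * N).choose j ≤ (2 * N + 1) ^ j :=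
        (Nat.choose_le_pow (2 * N) j).trans (Nat.pow_le_pow_left (by omega) j)
      exact_mod_cast this
    have h5 : (2 : ℝ) ^ j * (m : ℝ) ^ (2 * N - j) ≤ ρ ^ (2 * N - j) * ((m : ℝ) + 2) ^ (2 * N) := by
      have e2 : ((m : ℝ) + 2) ^ (2 * N) = (m + 2) ^ j * (m + 2) ^ (2 * N - j) := by
        rw [← pow_add]
        congr 1
        omega
      rw [e2, hρ, div_pow]
      have e3 : (m : ℝ) ^ (2 * N - j) / (m + 2) ^ (2 * N - j) * ((m + 2) ^ j * (m + 2) ^ (2 * N - j)) =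
          (m + 2) ^ j * (m : ℝ) ^ (2 * N - j) := by
        field_simp
      rw [e3]
      gcongr
      have : (0 : ℝ) ≤ m := by positivity
      linarith
    calc (((2 * N).choose j : ℕ) : ℝ) * 2 ^ j * (m : ℝ) ^ (2 * N - j)
        = (((2 * N).choose j : ℕ) : ℝ) * (2 ^ j * (m : ℝ) ^ (2 * N - j)) := by ring
      _ ≤ (2 * N + 1) ^ j * (ρ ^ (2 * N - j) * ((m : ℝ) + 2) ^ (2 * N)) := by gcongr
      _ ≤ (2 * N + 1) ^ j * (ρ ^ (2 * N - j) * (((N : ℝ) + 1) ^ (m + 2) * D N)) := by gcongr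
      _ ≤ (2 * N + 1) ^ j * (ρ ^ (2 * N - j) * ((2 * (N : ℝ) + 1) ^ (m + 2) * D N)) := by
        gcongr
        have : (0 : ℝ) ≤ N := by positivity
        linarith
      _ = (2 * N + 1) ^ (m + 2 + j) * ρ ^ (2 * N - j) * D N := by ring
  rw [Metric.tendsto_atTop]
  intro ε hε
  obtain ⟨j₀, hj₀⟩ := exists_nat_gt (4 / ε ^ 2)
  have h1 : 1 / Real.sqrt (j₀ + 1) < ε / 2 := by
    have h2 : 2 / ε < Real.sqrt (j₀ + 1) := by
      apply Real.lt_sqrt_of_sq_lt
      rw [div_pow]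
      norm_num
      linarith
    have h3 : 0 < 2 / ε := by positivity
    calc 1 / Real.sqrt (j₀ + 1) < 1 / (2 / ε) := one_div_lt_one_div_of_lt h3 h2
      _ = ε / 2 := by field_simp
  have h2 : Tendsto (fun N : ℕ => ∑ j ∈ range j₀, (((2 * N).choose j : ℝ) * 2 ^ j *
      (m : ℝ) ^ (2 * N - j)) / D N) atTop (𝓝 0) := by
    have := tendsto_finsetSum (range j₀) fun j _ => hsmall j
    simpa using this
  obtain ⟨N₀, hN₀⟩ := (Metric.tendsto_atTop.1 h2) (ε / 2) (by positivity)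
  refine ⟨N₀, fun N hN => ?_⟩
  have h3 := hN₀ N hN
  rw [Real.dist_eq, sub_zero] at h3 ⊢
  have h4 : (0 : ℝ) < D N := by exact_mod_cast hpos N
  rw [abs_of_nonneg (by positivity)]
  have h5 := upper g₀ γ j₀ (2 * N) (F N)
  rw [div_lt_iff₀ h4]
  refine h5.trans_lt ?_
  have h6 : (∑ j ∈ range j₀, (((2 * N).choose j : ℝ) * 2 ^ j * (m : ℝ) ^ (2 * N - j))) <
      ε / 2 * D N := by
    have h7 := (le_abs_self _).trans_lt h3
    rw [← Finset.sum_div, div_lt_iff₀ h4] at h7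
    exact h7
  have h8 : 1 / Real.sqrt (j₀ + 1) * ((D N : ℕ) : ℝ) < ε / 2 * D N :=
    mul_lt_mul_of_pos_right h1 h4
  calc _ < ε / 2 * D N + ε / 2 * D N := add_lt_add h6 h8
    _ = _ := by ring

end Pool.Agent.Run7.h731.SE
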