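import Pool.Agent.Run7.h731.SE.Rec
import Pool.Agent.Run7.h731.SE.Lim

/-!
# The count of the eigenvectors on the powers of a variety
-/

set_option autoImplicit false
set_option linter.unusedSectionVars false

namespace Pool.Agent.Run7.h731.SE

open TensorProduct Module MonoidAlgebra

universe u v w

namespace FrobCohomology

variable {q : ℕ} {E : Type u} [Field E] {C : FrobCohomology.{u, v, w} q E}

theorem exists_set (V : C.Var) : ∃ S : Finset (Multiplicative ℤ × Eˣ), ∀ p : ℕ,
    ∑ r ∈ Finset.range (2 * C.dim V + 1),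
      finrank E (⨆ ν : E, (C.frob V r).genEigenspace ν p : Submodule E (C.H V r)) ≤
    ∑ g ∈ S, C.kz V p g := by
  classical
  have h := fun r => exists_units (C.frob V r) (C.frob_bijective V r).1
  choose s hs using h
  set f : (Σ _ : ℕ, Eˣ) → Multiplicative ℤ × Eˣ := fun x => (Multiplicative.ofAdd (x.1 : ℤ), x.2)
    with hf
  refine ⟨((Finset.range (2 * C.dim V + 1)).sigma s).image f, fun p => ?_⟩
  rw [Finset.sum_image]
  · rw [Finset.sum_sigma]
    refine Finset.sum_le_sum fun r _ => (hs r p).trans (le_of_eq ?_)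
    exact Finset.sum_congr rfl fun ν _ => (C.kz_nat V p r ν).symm
  · rintro ⟨a, b⟩ _ ⟨a', b'⟩ _ hab
    have h1 := (Prod.ext_iff.1 hab).1
    have h2 : b = b' := (Prod.ext_iff.1 hab).2
    have h3 : (a : ℤ) = a' := Multiplicative.ofAdd.injective h1
    have h4 : a = a' := by exact_mod_cast h3
    rw [h2, h4]

/-- a bound for all the Betti numbers -/
theorem finrank_le_betti (V : C.Var) (r : ℕ) : finrank E (C.H V r) ≤ C.betti V := by
  by_cases h : r < 2 * C.dim V + 1
  · exact Finset.single_le_sum (f := fun r => finrank E (C.H V r)) (fun _ _ => Nat.zero_le _)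
      (Finset.mem_range.2 h)
  · rw [C.finrank_zero (by omega)]
    exact Nat.zero_le _

variable {V : C.Var} {r₀ : ℕ} {μ : Eˣ} (D : C.Data V r₀ μ)
include D

/-- the number of the eigenvectors -/
theorem Data.eigenDim_le (n : ℕ) :
    C.eigenDim (C.pow V n) ≤ aug (sol (single (g₀ r₀ μ) 1) (rest D.γ) n 1) := by
  obtain ⟨S, hS⟩ := exists_set (C.pow V n)
  have h1 : C.eigenDim (C.pow V n) ≤ ∑ g ∈ S, C.kz (C.pow V n) 1 g := by
    refine le_trans (le_of_eq ?_) (hS 1)
    rfl
  refine h1.trans ((Finset.sum_le_sum fun g _ => D.chain n 1 g).trans ?_)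
  exact sum_le_aug S _

theorem Data.eigenDim_sq (n : ℕ) :
    C.eigenDim (C.pow V n) ^ 2 * (2 * (n + 1)) ≤ C.betti V ^ (2 * n + 1) := by
  rw [← D.card]
  refine le_trans ?_ (aug_sol_sq (g₀ r₀ μ) D.γ n)
  exact Nat.mul_le_mul_right _ (Nat.pow_le_pow_left (D.eigenDim_le n) 2)

/-- the multiplicities of the eigenvalues of the Frobenius of `V ^ n` -/
theorem Data.kz_eq [IsAlgClosed E] (n : ℕ) {P : ℕ} (hP : C.betti (C.pow V n) ≤ P)
    (g : Multiplicative ℤ × Eˣ) :
    C.kz (C.pow V n) P g = cf (chi (g₀ r₀ μ) D.γ ^ n) g := by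
  classical
  obtain ⟨S, hS⟩ := exists_set (C.pow V n)
  have h1 : C.betti (C.pow V n) ≤ ∑ g ∈ S, C.kz (C.pow V n) P g := by
    refine le_trans (le_of_eq ?_) (hS P)
    unfold betti
    refine Finset.sum_congr rfl fun r _ => ?_
    have h2 : (⨆ ν : E, (C.frob (C.pow V n) r).genEigenspace ν P : Submodule E _) = ⊤ := by
      rw [eq_top_iff, ← Module.End.iSup_maxGenEigenspace_eq_top (C.frob (C.pow V n) r)]
      refine iSup_mono fun ν => ?_
      rw [Module.End.maxGenEigenspace_eq_genEigenspace_finrank]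
      exact (Module.End.genEigenspace _ ν).mono
        (by exact_mod_cast (finrank_le_betti (C.pow V n) r).trans hP)
    rw [h2, finrank_top]
  have hle : ∀ g, C.kz (C.pow V n) P g ≤ cf (chi (g₀ r₀ μ) D.γ ^ n) g := fun g =>
    (D.chain n P g).trans (cf_sol_le _ _ n P g)
  have h3 : ∑ g ∈ insert g S, cf (chi (g₀ r₀ μ) D.γ ^ n) g ≤ C.betti (C.pow V n) := by
    refine (sum_le_aug _ _).trans (le_of_eq ?_)
    rw [map_pow, aug_chi, D.card, C.betti_pow]
  have h4 : ∑ g ∈ insert g S, C.kz (C.pow V n) P g =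
      ∑ g ∈ insert g S, cf (chi (g₀ r₀ μ) D.γ ^ n) g := by
    refine le_antisymm (Finset.sum_le_sum fun g _ => hle g) (h3.trans (h1.trans ?_))
    exact Finset.sum_le_sum_of_subset (Finset.subset_insert _ _)
  exact (Finset.sum_eq_sum_iff_of_le (fun i _ => hle i)).1 h4 g (Finset.mem_insert_self _ _)

end FrobCohomology

end Pool.Agent.Run7.h731.SE
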