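import Mathlib

/-!
# The cohomology of varieties over a finite field, with its Frobenius: definitions
-/

set_option autoImplicit false

namespace Pool.Agent.Run7.h731.SE

open TensorProduct Module

universe u v w

/-- The `ℓ`-adic cohomology, with coefficients in a field `E` (an algebraic closure of `ℚ_ℓ`), of a class of smooth
projective varieties over the field with `q` elements which is closed under products: `H V r` is
`H ^ r (V̄, ℚ_ℓ) ⊗ E`, and `frob V r` is the Frobenius. -/
structure FrobCohomology (q : ℕ) (E : Type u) [Field E] where
  /-- the smooth projective varieties of the class -/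
  Var : Type v
  /-- the dimension -/
  dim : Var → ℕ
  /-- the cohomology groups -/
  H : Var → ℕ → Type w
  [acg : ∀ V r, AddCommGroup (H V r)]
  [mod : ∀ V r, Module E (H V r)]
  [fin : ∀ V r, FiniteDimensional E (H V r)]
  /-- the Frobenius -/
  frob : ∀ V r, Module.End E (H V r)
  /-- the Frobenius is bijective -/
  frob_bijective : ∀ V r, Function.Bijective (frob V r)
  /-- the cohomology vanishes above the degree `2 dim V` -/
  vanishing : ∀ V r, 2 * dim V < r → Subsingleton (H V r)
  /-- the point -/
  point : Var
  dim_point : dim point = 0
  finrank_point : finrank E (H point 0) = 1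
  frob_point : frob point 0 = 1
  /-- the product of two varieties -/
  prod : Var → Var → Var
  dim_prod : ∀ V W, dim (prod V W) = dim V + dim W
  /-- the Künneth formula: `H ^ r (V × W)` is the direct sum of the `H ^ i (V) ⊗ H ^ (r - i) (W)` -/
  kunneth : ∀ V W r, H (prod V W) r ≃ₗ[E] ∀ i : Fin (r + 1), H V i ⊗[E] H W (r - i)
  /-- the Künneth formula is compatible with the Frobenius -/
  kunneth_frob : ∀ V W r (x : H (prod V W) r) (i : Fin (r + 1)),
    kunneth V W r (frob (prod V W) r x) i =
      TensorProduct.map (frob V i) (frob W (r - i)) (kunneth V W r x i)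
  /-- Poincaré duality -/
  duality : ∀ V r s, r + s = 2 * dim V → (H V s ≃ₗ[E] Module.Dual E (H V r))
  /-- the cup product of the images of two classes of complementary degree under the Frobenius is
  `q ^ dim V` times the cup product of the classes -/
  duality_frob : ∀ V r s (h : r + s = 2 * dim V) (y : H V s) (x : H V r),
    duality V r s h (frob V s y) (frob V r x) = (q : E) ^ dim V * duality V r s h y x

attribute [instance] FrobCohomology.acg FrobCohomology.mod FrobCohomology.fin

namespace FrobCohomology

variable {q : ℕ} {E : Type u} [Field E] (C : FrobCohomology.{u, v, w} q E)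

/-- The Frobenius acts semisimply on `H ^ r (V̄, ℚ_ℓ)`: it is diagonalisable over `E`, that is, its eigenvectors span
`H V r`. -/
def Semisimple (V : C.Var) (r : ℕ) : Prop := ⨆ ν : E, (C.frob V r).eigenspace ν = ⊤

/-- The Jordan blocks of the Frobenius on `H V r` have size at most `k`: each `x` which is killed by a power of
`F - ν` is killed by `(F - ν) ^ k`. -/
def BlocksLe (V : C.Var) (r k : ℕ) : Prop :=
  ∀ ν : E, (C.frob V r).maxGenEigenspace ν ≤ (C.frob V r).genEigenspace ν k

/-- the sum of the Betti numbers of `V` -/
noncomputable def betti (V : C.Var) : ℕ := ∑ r ∈ Finset.range (2 * C.dim V + 1), finrank E (C.H V r)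

/-- the dimension of the subspace of the cohomology of `V` (all degrees) which is spanned by the
eigenvectors of the Frobenius; it is also the number of its Jordan blocks -/
noncomputable def eigenDim (V : C.Var) : ℕ :=
  ∑ r ∈ Finset.range (2 * C.dim V + 1),
    finrank E (⨆ ν : E, (C.frob V r).eigenspace ν : Submodule E (C.H V r))

/-- the dimension of the space of the Tate classes, the `x ∈ H ^ (2 m) (V)`, all `m`, with
`F x = q ^ m x` -/
noncomputable def tateDim (V : C.Var) : ℕ :=
  ∑ m ∈ Finset.range (C.dim V + 1), finrank E ((C.frob V (2 * m)).eigenspace ((q : E) ^ m))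

/-- the dimension of the space of the generalized Tate classes, the `x ∈ H ^ (2 m) (V)`, all `m`, with
`(F - q ^ m) ^ k x = 0` for some `k`; it is the sum of the orders of the poles of the zeta function of `V` at the
points `0, …, dim V` -/
noncomputable def genTateDim (V : C.Var) : ℕ :=
  ∑ m ∈ Finset.range (C.dim V + 1), finrank E ((C.frob V (2 * m)).maxGenEigenspace ((q : E) ^ m))

/-- the power `V ^ n` -/
def pow (V : C.Var) : ℕ → C.Var
  | 0 => C.point
  | n + 1 => C.prod (pow V n) V

end FrobCohomology

end Pool.Agent.Run7.h731.SE
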