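import Pool.Agent.Run7.h731.SE.Count

/-!
# Poincaré duality and the Tate classes of the powers of a variety
-/

set_option autoImplicit false
set_option linter.unusedSectionVars false

namespace Pool.Agent.Run7.h731.SE

open TensorProduct Module MonoidAlgebra Filter Topology

universe u v w

section Lin

variable {E : Type u} [Field E] {A B : Type*} [AddCommGroup A] [Module E A] [FiniteDimensional E A]
  [AddCommGroup B] [Module E B] [FiniteDimensional E B]

theorem dual_ker {F : Module.End E A} {G : Module.End E B} (hG : Function.Bijective G)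
    (D : B ≃ₗ[E] Module.Dual E A) {c ν : E} (hν : ν ≠ 0)
    (hD : ∀ y x, D (G y) (F x) = c * D y x) (p : ℕ) (y : B)
    (hy : ((G - (c / ν) • (1 : Module.End E B)) ^ p) y = 0) (x : A) :
    D y (((F - ν • (1 : Module.End E A)) ^ p) x) = 0 := by
  induction p generalizing y x with
  | zero =>
    rw [pow_zero, Module.End.one_apply] at hy
    rw [hy, map_zero, LinearMap.zero_apply]
  | succ p ih =>
    obtain ⟨y', rfl⟩ := hG.2 y
    rw [pow_succ', Module.End.mul_apply]
    set x' := ((F - ν • (1 : Module.End E A)) ^ p) x with hx'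
    have h1 : D (G y') ((F - ν • (1 : Module.End E A)) x') =
        -ν * D ((G - (c / ν) • (1 : Module.End E B)) y') x' := by
      simp only [LinearMap.sub_apply, LinearMap.smul_apply, Module.End.one_apply, map_sub, map_smul,
        hD, smul_eq_mul]
      field_simp
      ring
    rw [h1, ih ((G - (c / ν) • (1 : Module.End E B)) y') ?_ x, mul_zero]
    have h2 : G (((G - (c / ν) • (1 : Module.End E B)) ^ p) ((G - (c / ν) • (1 : Module.End E B)) y')) =
        ((G - (c / ν) • (1 : Module.End E B)) ^ (p + 1)) (G y') := by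
      have h3 : ((G - (c / ν) • (1 : Module.End E B)) ^ p) ((G - (c / ν) • (1 : Module.End E B)) y') =
          ((G - (c / ν) • (1 : Module.End E B)) ^ (p + 1)) y' := by
        rw [pow_succ, Module.End.mul_apply]
      rw [h3]
      exact pow_comm (S := G) (T := G) (i := G) (fun x => rfl) _ _ _
    rw [hy] at h2
    exact hG.1 (by rw [h2, map_zero])

theorem kd_dual_le {F : Module.End E A} {G : Module.End E B} (hG : Function.Bijective G)
    (D : B ≃ₗ[E] Module.Dual E A) {c ν : E} (hν : ν ≠ 0)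
    (hD : ∀ y x, D (G y) (F x) = c * D y x) (p : ℕ) : kd G (c / ν) p ≤ kd F ν p := by
  unfold kd
  set S := (F - ν • (1 : Module.End E A)) ^ p with hS
  set KB := LinearMap.ker ((G - (c / ν) • (1 : Module.End E B)) ^ p) with hKB
  have h1 : finrank E (LinearMap.ker S.dualMap) = finrank E (LinearMap.ker S) := by
    have h2 := LinearMap.finrank_range_add_finrank_ker S
    have h3 := LinearMap.finrank_range_add_finrank_ker S.dualMap
    rw [LinearMap.finrank_range_dualMap_eq_finrank_range, Subspace.dual_finrank_eq] at h3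
    omega
  rw [← h1]
  have hm : ∀ y ∈ KB, D.toLinearMap y ∈ LinearMap.ker S.dualMap := by
    intro y hy
    rw [LinearMap.mem_ker]
    ext x
    exact dual_ker hG D hν hD p y (LinearMap.mem_ker.1 hy) x
  refine LinearMap.finrank_le_finrank_of_injective (f := D.toLinearMap.restrict hm) ?_
  intro x y hxy
  apply Subtype.ext
  apply D.injective
  exact congrArg Subtype.val hxy

end Lin

namespace FrobCohomology

variable {q : ℕ} {E : Type u} [Field E] {C : FrobCohomology.{u, v, w} q E}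

theorem kd_dual_le' (V : C.Var) {r s : ℕ} (h : r + s = 2 * C.dim V) {ν : E} (hν : ν ≠ 0) (p : ℕ) :
    kd (C.frob V s) ((q : E) ^ C.dim V / ν) p ≤ kd (C.frob V r) ν p :=
  kd_dual_le (C.frob_bijective V s) (C.duality V r s h) hν (C.duality_frob V r s h) p

theorem kd_dual (V : C.Var) {r s : ℕ} (h : r + s = 2 * C.dim V) (hq : (q : E) ≠ 0) {ν : E}
    (hν : ν ≠ 0) (p : ℕ) :
    kd (C.frob V s) ((q : E) ^ C.dim V / ν) p = kd (C.frob V r) ν p := by
  refine le_antisymm (kd_dual_le' V h hν p) ?_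
  have hc : (q : E) ^ C.dim V ≠ 0 := pow_ne_zero _ hq
  have h1 := kd_dual_le' V (r := s) (s := r) (by omega) (ν := (q : E) ^ C.dim V / ν)
    (div_ne_zero hc hν) p
  rwa [div_div_cancel₀ hc] at h1

/-- the twist of Poincaré duality -/
def tw (q d : ℕ) (hq : (q : E) ≠ 0) : Multiplicative ℤ × Eˣ :=
  (Multiplicative.ofAdd ((2 * d : ℕ) : ℤ), Units.mk0 (q : E) hq ^ d)

theorem kz_dual (V : C.Var) (hq : (q : E) ≠ 0) (p : ℕ) (g : Multiplicative ℤ × Eˣ) :
    C.kz V p (tw q (C.dim V) hq * g⁻¹) = C.kz V p g := by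
  obtain ⟨z, ν⟩ := g
  unfold kz
  have e1 : Multiplicative.toAdd ((tw q (C.dim V) hq * (z, ν)⁻¹ : Multiplicative ℤ × Eˣ)).1 =
      ((2 * C.dim V : ℕ) : ℤ) - Multiplicative.toAdd z := by
    unfold tw
    simp only [Prod.fst_mul, Prod.fst_inv, toAdd_mul, toAdd_inv, toAdd_ofAdd]
    ring
  have e2 : (((tw q (C.dim V) hq * (z, ν)⁻¹ : Multiplicative ℤ × Eˣ)).2 : E) =
      (q : E) ^ C.dim V / ν := by
    unfold tw
    simp only [Prod.snd_mul, Prod.snd_inv, Units.val_mul, Units.val_pow_eq_pow_val,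
      Units.val_mk0, Units.val_inv_eq_inv_val]
    rw [div_eq_mul_inv]
  rw [e1, e2]
  simp only
  set k : ℤ := Multiplicative.toAdd z with hk
  by_cases h1 : 0 ≤ k
  · rw [if_pos h1]
    by_cases h2 : 0 ≤ ((2 * C.dim V : ℕ) : ℤ) - k
    · rw [if_pos h2]
      exact kd_dual V (by omega) hq ν.ne_zero p
    · rw [if_neg h2]
      have h3 := kd_le_finrank (C.frob V k.toNat) (ν : E) p
      rw [C.finrank_zero (by omega)] at h3
      omega
  · rw [if_neg h1]
    split_ifs with h2
    · have h3 := kd_le_finrank (C.frob V (((2 * C.dim V : ℕ) : ℤ) - k).toNat)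
        ((q : E) ^ C.dim V / ν) p
      rw [C.finrank_zero (by omega)] at h3
      omega
    · rfl

variable {V : C.Var} {r₀ : ℕ} {μ : Eˣ} (D : C.Data V r₀ μ)

theorem Data.chi_symm [IsAlgClosed E] (hq : (q : E) ≠ 0) (g : Multiplicative ℤ × Eˣ) :
    cf (chi (g₀ r₀ μ) D.γ) (tw q (C.dim V) hq * g⁻¹) = cf (chi (g₀ r₀ μ) D.γ) g := by
  have h1 := D.kz_eq 1 (le_refl (C.betti (C.pow V 1)))
  rw [pow_one] at h1
  rw [← h1, ← h1]
  have h2 : C.dim (C.pow V 1) = C.dim V := by rw [C.dim_pow, one_mul]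
  have h3 := kz_dual (C.pow V 1) hq (C.betti (C.pow V 1)) g
  rwa [h2] at h3

/-- the places of the Tate classes -/
noncomputable def places (d : ℕ) (hq : (q : E) ≠ 0) : Finset (Multiplicative ℤ × Eˣ) := by
  classical
  exact (Finset.range (d + 1)).image fun m => tw q m hq

theorem sum_places (d : ℕ) (hq : (q : E) ≠ 0) (f : Multiplicative ℤ × Eˣ → ℕ) :
    ∑ g ∈ places d hq, f g = ∑ m ∈ Finset.range (d + 1), f (tw q m hq) := by
  classical
  unfold places
  rw [Finset.sum_image]
  intro a _ b _ hab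
  have h1 := (Prod.ext_iff.1 hab).1
  have h3 : ((2 * a : ℕ) : ℤ) = (2 * b : ℕ) := Multiplicative.ofAdd.injective h1
  omega

theorem kz_tw (V : C.Var) (hq : (q : E) ≠ 0) (p m : ℕ) :
    C.kz V p (tw q m hq) = kd (C.frob V (2 * m)) ((q : E) ^ m) p := by
  unfold tw
  rw [kz_nat]
  simp

theorem tateDim_eq (V : C.Var) (hq : (q : E) ≠ 0) :
    C.tateDim V = ∑ g ∈ places (C.dim V) hq, C.kz V 1 g := by
  rw [sum_places]
  unfold tateDim
  refine Finset.sum_congr rfl fun m _ => ?_
  rw [kz_tw, kd_one]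

theorem genTateDim_eq (V : C.Var) (hq : (q : E) ≠ 0) {P : ℕ} (hP : C.betti V ≤ P) :
    C.genTateDim V = ∑ g ∈ places (C.dim V) hq, C.kz V P g := by
  rw [sum_places]
  unfold genTateDim
  refine Finset.sum_congr rfl fun m _ => ?_
  rw [kz_tw, kd_max _ _ ((finrank_le_betti V (2 * m)).trans hP)]

include D in
theorem Data.limit [IsAlgClosed E] (hq : (q : E) ≠ 0) :
    (∀ N, 0 < C.genTateDim (C.pow V (2 * N))) ∧
    Tendsto (fun N : ℕ => (C.tateDim (C.pow V (2 * N)) : ℝ) / C.genTateDim (C.pow V (2 * N)))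
      atTop (𝓝 0) := by
  have hF : ∀ N, (tw q (C.dim V) hq : Multiplicative ℤ × Eˣ) ^ N ∈
      places (C.dim (C.pow V (2 * N))) hq := by
    classical
    intro N
    unfold places
    rw [Finset.mem_image]
    refine ⟨N * C.dim V, ?_, ?_⟩
    · rw [Finset.mem_range, C.dim_pow]
      nlinarith [Nat.zero_le (N * C.dim V)]
    · unfold tw
      refine Prod.ext ?_ ?_
      · simp only [Prod.pow_fst]
        rw [← ofAdd_nsmul]
        congr 1
        push_cast
        rw [nsmul_eq_mul]
        ring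
      · simp only [Prod.pow_snd]
        rw [← pow_mul, mul_comm]
  obtain ⟨h1, h2⟩ := SE.limit (g₀ r₀ μ) D.γ (D.chi_symm hq)
    (fun N => places (C.dim (C.pow V (2 * N))) hq) hF
  have h3 : ∀ N, C.genTateDim (C.pow V (2 * N)) =
      ∑ g ∈ places (C.dim (C.pow V (2 * N))) hq, cf (chi (g₀ r₀ μ) D.γ ^ (2 * N)) g := by
    intro N
    rw [genTateDim_eq _ hq le_rfl]
    exact Finset.sum_congr rfl fun g _ => D.kz_eq (2 * N) le_rfl g
  have h4 : ∀ N, C.tateDim (C.pow V (2 * N)) ≤
      ∑ g ∈ places (C.dim (C.pow V (2 * N))) hq,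
        cf (sol (single (g₀ r₀ μ) 1) (rest D.γ) (2 * N) 1) g := by
    intro N
    rw [tateDim_eq _ hq]
    exact Finset.sum_le_sum fun g _ => D.chain (2 * N) 1 g
  refine ⟨fun N => by rw [h3]; exact h1 N, ?_⟩
  refine squeeze_zero (fun N => by positivity) (fun N => ?_) h2
  rw [h3]
  gcongr
  exact h4 N

end FrobCohomology

end Pool.Agent.Run7.h731.SE
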