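import Pool.Agent.Run7.h731.SE.Block

/-!
# The final deductions
-/

set_option autoImplicit false
set_option linter.unusedSectionVars false

namespace Pool.Agent.Run7.h731.SE

open TensorProduct Module MonoidAlgebra Filter Topology

universe u v w

namespace FrobCohomology

variable {q : ℕ} {E : Type u} [Field E] (C : FrobCohomology.{u, v, w} q E)

theorem eigenDim_of_semisimple (h : ∀ V r, C.Semisimple V r) (V : C.Var) :
    C.eigenDim V = C.betti V := by
  unfold eigenDim betti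
  refine Finset.sum_congr rfl fun r _ => ?_
  have h1 : (⨆ ν : E, (C.frob V r).eigenspace ν : Submodule E (C.H V r)) = ⊤ := h V r
  rw [h1, finrank_top]

theorem tateDim_of_semisimple (h : ∀ V r, C.Semisimple V r) (V : C.Var) :
    C.tateDim V = C.genTateDim V := by
  unfold tateDim genTateDim
  refine Finset.sum_congr rfl fun m _ => ?_
  rw [maxGen_eq_of_semisimple (h V (2 * m))]

variable {C}

theorem Data.betti_gt {V : C.Var} {r₀ : ℕ} {μ : Eˣ} (D : C.Data V r₀ μ) : 2 ≤ C.betti V := by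
  have := D.card
  omega

/-- the bound for a proportion of eigenvectors on `V ^ n` -/
theorem Data.prop_sq {V : C.Var} {r₀ : ℕ} {μ : Eˣ} (D : C.Data V r₀ μ) {ε : ℝ} (hε : 0 ≤ ε) {n : ℕ}
    (h : ε * C.betti (C.pow V n) ≤ C.eigenDim (C.pow V n)) :
    ε ^ 2 * (2 * (n + 1)) ≤ C.betti V := by
  have hb : (0 : ℝ) < C.betti V := by
    have := D.betti_gt
    exact_mod_cast (by omega : 0 < C.betti V)
  have h1 : (C.eigenDim (C.pow V n) : ℝ) ^ 2 * (2 * (n + 1)) ≤ (C.betti V : ℝ) ^ (2 * n + 1) := by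
    exact_mod_cast D.eigenDim_sq n
  rw [C.betti_pow] at h
  push_cast at h
  have h2 : (ε * (C.betti V : ℝ) ^ n) ^ 2 * (2 * (n + 1)) ≤ (C.betti V : ℝ) ^ (2 * n + 1) := by
    refine le_trans ?_ h1
    gcongr
  have h3 : (ε ^ 2 * (2 * (n + 1))) * ((C.betti V : ℝ) ^ (2 * n)) ≤
      (C.betti V : ℝ) * (C.betti V : ℝ) ^ (2 * n) := by
    calc _ = (ε * (C.betti V : ℝ) ^ n) ^ 2 * (2 * (n + 1)) := by ring
      _ ≤ _ := h2
      _ = _ := by ring
  exact le_of_mul_le_mul_right h3 (by positivity)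

theorem semisimple_of_log [IsAlgClosed E] [CharZero E] (φ : ℕ → ℝ)
    (hφ : Tendsto (fun b : ℕ => φ b * Real.sqrt (Real.log b)) atTop atTop)
    (h : ∀ V, φ (C.betti V) * C.betti V ≤ C.eigenDim V) (V : C.Var) (r : ℕ) :
    C.Semisimple V r := by
  by_contra hV
  obtain ⟨μ, ⟨D⟩⟩ := C.exists_data V r hV
  have hb := D.betti_gt
  set b := C.betti V with hb'
  have h1 : Tendsto (fun n : ℕ => b ^ n) atTop atTop :=
    tendsto_pow_atTop_atTop_of_one_lt (by omega)
  have hlog : 0 < Real.log b := Real.log_pos (by exact_mod_cast (by omega : 1 < b))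
  have h2 := (hφ.comp h1).eventually_gt_atTop (Real.sqrt (b * Real.log b))
  obtain ⟨n, hn⟩ := h2.exists
  simp only [Function.comp] at hn
  have h3 : Real.log ((b ^ n : ℕ) : ℝ) = n * Real.log b := by
    push_cast
    rw [Real.log_pow]
  rw [h3] at hn
  have h4 : 0 < φ (b ^ n) := by
    by_contra hcon
    have h5 : φ (b ^ n) * Real.sqrt (n * Real.log b) ≤ 0 :=
      mul_nonpos_of_nonpos_of_nonneg (not_lt.1 hcon) (Real.sqrt_nonneg _)
    have h6 := Real.sqrt_nonneg (b * Real.log b)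
    linarith
  have h5 : (b : ℝ) * Real.log b < φ (b ^ n) ^ 2 * (n * Real.log b) := by
    have h6 := pow_lt_pow_left₀ hn (Real.sqrt_nonneg _) (two_ne_zero)
    rwa [mul_pow, Real.sq_sqrt (by positivity), Real.sq_sqrt (by positivity)] at h6
  have h6 : (b : ℝ) < φ (b ^ n) ^ 2 * n := by
    rw [← mul_assoc] at h5
    exact lt_of_mul_lt_mul_right h5 hlog.le
  have h7 := h (C.pow V n)
  have h8 : C.betti (C.pow V n) = b ^ n := C.betti_pow V n
  rw [h8] at h7
  have h9 : φ (b ^ n) * C.betti (C.pow V n) ≤ C.eigenDim (C.pow V n) := by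
    rw [h8]; exact h7
  have h10 := D.prop_sq h4.le h9
  rw [← hb'] at h10
  have h11 : φ (b ^ n) ^ 2 * n ≤ φ (b ^ n) ^ 2 * (2 * (n + 1)) := by
    gcongr
    have : (0 : ℝ) ≤ n := by positivity
    linarith
  linarith

theorem semisimple_of_dim [IsAlgClosed E] [CharZero E] (φ : ℕ → ℝ) (hpos : ∀ d, 0 < φ d)
    (hφ : Tendsto (fun d : ℕ => φ d * Real.sqrt d) atTop atTop)
    (h : ∀ V, φ (C.dim V) * C.betti V ≤ C.eigenDim V) (V : C.Var) (r : ℕ) :
    C.Semisimple V r := by
  by_contra hV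
  obtain ⟨μ, ⟨D⟩⟩ := C.exists_data V r hV
  have key : ∀ n : ℕ, φ (n * C.dim V) ^ 2 * (2 * (n + 1)) ≤ C.betti V := by
    intro n
    have h1 := h (C.pow V n)
    rw [C.dim_pow] at h1
    exact D.prop_sq (hpos _).le h1
  rcases Nat.eq_zero_or_pos (C.dim V) with hd | hd
  · obtain ⟨n, hn⟩ := exists_nat_gt ((C.betti V : ℝ) / φ 0 ^ 2)
    have h1 := key n
    rw [hd, mul_zero] at h1
    have h2 : 0 < φ 0 ^ 2 := by
      have := hpos 0
      positivity
    rw [div_lt_iff₀ h2] at hn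
    nlinarith
  · have h1 : Tendsto (fun n : ℕ => n * C.dim V) atTop atTop :=
      tendsto_atTop_mono (fun n => Nat.le_mul_of_pos_right n hd) tendsto_id
    have h2 := (hφ.comp h1).eventually_gt_atTop (Real.sqrt (C.betti V * C.dim V))
    obtain ⟨n, hn⟩ := h2.exists
    simp only [Function.comp] at hn
    have h5 : (C.betti V : ℝ) * C.dim V < φ (n * C.dim V) ^ 2 * ((n * C.dim V : ℕ) : ℝ) := by
      have h6 := pow_lt_pow_left₀ hn (Real.sqrt_nonneg _) (two_ne_zero)
      rwa [mul_pow, Real.sq_sqrt (by positivity), Real.sq_sqrt (by positivity)] at h6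
    have hd' : (0 : ℝ) < C.dim V := by exact_mod_cast hd
    have h6 : (C.betti V : ℝ) < φ (n * C.dim V) ^ 2 * n := by
      push_cast at h5
      rw [← mul_assoc] at h5
      exact lt_of_mul_lt_mul_right h5 hd'.le
    have h10 := key n
    have h11 : φ (n * C.dim V) ^ 2 * n ≤ φ (n * C.dim V) ^ 2 * (2 * (n + 1)) := by
      gcongr
      have : (0 : ℝ) ≤ n := by positivity
      linarith
    linarith

theorem semisimple_of_blocks [IsAlgClosed E] [CharZero E] (ψ : ℕ → ℕ)
    (hψ : Tendsto (fun d : ℕ => (ψ d : ℝ) / d) atTop (𝓝 0))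
    (h : ∀ V r, C.BlocksLe V r (ψ (C.dim V))) (V : C.Var) (r : ℕ) : C.Semisimple V r := by
  by_contra hV
  obtain ⟨μ, ⟨D⟩⟩ := C.exists_data V r hV
  have key : ∀ n : ℕ, n < ψ (n * C.dim V) := by
    intro n
    by_contra hcon
    apply D.block n
    have h1 := h (C.pow V n) (n * r) ((μ : E) ^ n)
    rw [C.dim_pow] at h1
    refine h1.trans ((Module.End.genEigenspace _ _).mono ?_)
    exact_mod_cast not_lt.1 hcon
  rcases Nat.eq_zero_or_pos (C.dim V) with hd | hd
  · have h1 := key (ψ 0)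
    rw [hd, mul_zero] at h1
    omega
  · have h1 : Tendsto (fun n : ℕ => n * C.dim V) atTop atTop :=
      tendsto_atTop_mono (fun n => Nat.le_mul_of_pos_right n hd) tendsto_id
    have hd' : (0 : ℝ) < C.dim V := by exact_mod_cast hd
    have h2 := (hψ.comp h1).eventually_lt_const (u := 1 / (C.dim V : ℝ)) (by positivity)
    obtain ⟨n, hn, hn1⟩ := (h2.and (eventually_ge_atTop 1)).exists
    simp only [Function.comp] at hn
    have h3 : (0 : ℝ) < n := by exact_mod_cast hn1
    push_cast at hn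
    rw [div_lt_div_iff₀ (by positivity) hd'] at hn
    have h4 : (n : ℝ) < ψ (n * C.dim V) := by exact_mod_cast key n
    nlinarith

theorem semisimple_of_tate [IsAlgClosed E] [CharZero E] (hq : 0 < q) {ε : ℝ} (hε : 0 < ε)
    (h : ∀ V, ε * C.genTateDim V ≤ C.tateDim V) (V : C.Var) (r : ℕ) : C.Semisimple V r := by
  by_contra hV
  obtain ⟨μ, ⟨D⟩⟩ := C.exists_data V r hV
  have hq' : (q : E) ≠ 0 := by exact_mod_cast hq.ne'
  obtain ⟨h1, h2⟩ := D.limit hq'
  obtain ⟨N, hN⟩ := (h2.eventually_lt_const hε).exists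
  have h3 : (0 : ℝ) < C.genTateDim (C.pow V (2 * N)) := by exact_mod_cast h1 N
  rw [div_lt_iff₀ h3] at hN
  exact absurd (h (C.pow V (2 * N))) (not_le.2 hN)

end FrobCohomology

end Pool.Agent.Run7.h731.SE
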