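import Pool.Agent.Run7.h731.SE.Final

/-!
# Products of semisimple varieties, and the law for the powers of a variety
-/

set_option autoImplicit false
set_option linter.unusedSectionVars false

namespace Pool.Agent.Run7.h731.SE

open TensorProduct Module MonoidAlgebra Filter Topology

universe u v w

namespace FrobCohomology

variable {q : ℕ} {E : Type u} [Field E] (C : FrobCohomology.{u, v, w} q E)

theorem semisimple_prod {V W : C.Var} (hV : ∀ r, C.Semisimple V r) (hW : ∀ r, C.Semisimple W r)
    (r : ℕ) : C.Semisimple (C.prod V W) r := by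
  classical
  unfold Semisimple
  set S : Submodule E (C.H (C.prod V W) r) := ⨆ ν : E, (C.frob (C.prod V W) r).eigenspace ν with hS
  set e := C.kunneth V W r with he
  -- the pure tensors of eigenvectors
  have h1 : ∀ (i : Fin (r + 1)) (a b : E) (x : C.H V i) (y : C.H W (r - i)),
      x ∈ (C.frob V i).eigenspace a → y ∈ (C.frob W (r - i)).eigenspace b →
      e.symm (Pi.single i (x ⊗ₜ[E] y)) ∈ S := by
    intro i a b x y hx hy
    refine Submodule.mem_iSup_of_mem (a * b) ?_
    rw [Module.End.mem_eigenspace_iff]
    apply e.injective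
    rw [map_smul, LinearEquiv.apply_symm_apply]
    funext j
    rw [he, C.kunneth_frob, LinearEquiv.apply_symm_apply, Pi.smul_apply]
    by_cases hj : j = i
    · subst hj
      rw [Pi.single_eq_same, TensorProduct.map_tmul, Module.End.mem_eigenspace_iff.1 hx,
        Module.End.mem_eigenspace_iff.1 hy, TensorProduct.smul_tmul_smul]
    · rw [Pi.single_eq_of_ne hj, map_zero, smul_zero]
  have h2 : ∀ (i : Fin (r + 1)) (x : C.H V i) (y : C.H W (r - i)),
      e.symm (Pi.single i (x ⊗ₜ[E] y)) ∈ S := by
    intro i x y
    have hx : x ∈ ⨆ ν : E, (C.frob V i).eigenspace ν := by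
      rw [hV i]; trivial
    have hy : y ∈ ⨆ ν : E, (C.frob W (r - i)).eigenspace ν := by
      rw [hW (r - i)]; trivial
    induction hx using Submodule.iSup_induction' with
    | mem a x hx =>
      induction hy using Submodule.iSup_induction' with
      | mem b y hy => exact h1 i a b x y hx hy
      | zero =>
        rw [TensorProduct.tmul_zero, Pi.single_zero, map_zero]
        exact Submodule.zero_mem _
      | add y y' _ _ h h' =>
        rw [TensorProduct.tmul_add, Pi.single_add, map_add]
        exact Submodule.add_mem _ h h'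
    | zero =>
      rw [TensorProduct.zero_tmul, Pi.single_zero, map_zero]
      exact Submodule.zero_mem _
    | add x x' _ _ h h' =>
      rw [TensorProduct.add_tmul, Pi.single_add, map_add]
      exact Submodule.add_mem _ h h'
  have h3 : ∀ (i : Fin (r + 1)) (z : C.H V i ⊗[E] C.H W (r - i)), e.symm (Pi.single i z) ∈ S := by
    intro i z
    induction z using TensorProduct.induction_on with
    | zero =>
      rw [Pi.single_zero, map_zero]
      exact Submodule.zero_mem _
    | tmul x y => exact h2 i x y
    | add z z' h h' =>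
      rw [Pi.single_add, map_add]
      exact Submodule.add_mem _ h h'
  rw [eq_top_iff]
  intro x _
  rw [← e.symm_apply_apply x, ← Finset.univ_sum_single (e x), map_sum]
  exact Submodule.sum_mem _ fun i _ => h3 i _

theorem semisimple_point (r : ℕ) : C.Semisimple C.point r := by
  unfold Semisimple
  rcases Nat.eq_zero_or_pos r with h | h
  · subst h
    rw [eq_top_iff]
    intro x _
    refine Submodule.mem_iSup_of_mem 1 ?_
    rw [Module.End.mem_eigenspace_iff, C.frob_point, one_smul, Module.End.one_apply]
  · have := C.vanishing C.point r (by rw [C.dim_point]; omega)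
    exact Subsingleton.elim _ _

theorem semisimple_pow {V : C.Var} (hV : ∀ r, C.Semisimple V r) (n : ℕ) :
    ∀ r, C.Semisimple (C.pow V n) r := by
  induction n with
  | zero => exact C.semisimple_point
  | succ n ih => exact C.semisimple_prod ih hV

theorem eigenDim_eq {V : C.Var} (h : ∀ r, C.Semisimple V r) : C.eigenDim V = C.betti V := by
  unfold eigenDim betti
  refine Finset.sum_congr rfl fun r _ => ?_
  have h1 : (⨆ ν : E, (C.frob V r).eigenspace ν : Submodule E (C.H V r)) = ⊤ := h r
  rw [h1, finrank_top]

theorem tateDim_eq_gen {V : C.Var} (h : ∀ r, C.Semisimple V r) : C.tateDim V = C.genTateDim V := by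
  unfold tateDim genTateDim
  refine Finset.sum_congr rfl fun m _ => ?_
  rw [maxGen_eq_of_semisimple (h (2 * m))]

variable {C}

/-- the proportion of the eigenvectors -/
theorem Data.ratio {V : C.Var} {r₀ : ℕ} {μ : Eˣ} (D : C.Data V r₀ μ) (n : ℕ) :
    (C.eigenDim (C.pow V n) : ℝ) / C.betti (C.pow V n) ≤
      Real.sqrt (C.betti V / (2 * (n + 1))) := by
  have hb : (0 : ℝ) < C.betti V := by
    have := D.betti_gt
    exact_mod_cast (by omega : 0 < C.betti V)
  have h0 : (0 : ℝ) < C.betti (C.pow V n) := by
    rw [C.betti_pow]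
    push_cast
    positivity
  apply Real.le_sqrt_of_sq_le
  rw [le_div_iff₀ (by positivity)]
  refine D.prop_sq (ε := (C.eigenDim (C.pow V n) : ℝ) / C.betti (C.pow V n)) (by positivity) ?_
  rw [div_mul_cancel₀ _ h0.ne']

theorem Data.ratio_lim {V : C.Var} {r₀ : ℕ} {μ : Eˣ} (D : C.Data V r₀ μ) :
    Tendsto (fun n => (C.eigenDim (C.pow V n) : ℝ) / C.betti (C.pow V n)) atTop (𝓝 0) := by
  refine squeeze_zero (fun n => by positivity) (fun n => D.ratio n) ?_
  have h1 : Tendsto (fun n : ℕ => (C.betti V : ℝ) / (2 * ((n : ℝ) + 1))) atTop (𝓝 0) := by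
    refine Tendsto.div_atTop tendsto_const_nhds ?_
    refine Tendsto.const_mul_atTop (by norm_num) ?_
    exact tendsto_atTop_add_const_right _ _ tendsto_natCast_atTop_atTop
  have h2 := h1.sqrt
  rwa [Real.sqrt_zero] at h2

end FrobCohomology

end Pool.Agent.Run7.h731.SE
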