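import Mathlib

/-!
# The kernels of `(G ⊗ F - ν) ^ p`
-/

set_option autoImplicit false

namespace Pool.Agent.Run7.h731.SE

open TensorProduct Module

universe u v

variable {E : Type u} [Field E]

/-- the dimension of the kernel of `(T - ν) ^ p` -/
noncomputable def kd {A : Type*} [AddCommGroup A] [Module E A] (T : Module.End E A) (ν : E) (p : ℕ) : ℕ :=
  finrank E (LinearMap.ker ((T - ν • (1 : Module.End E A)) ^ p))

theorem pow_comm {A B : Type*} [AddCommGroup A] [Module E A] [AddCommGroup B] [Module E B]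
    {S : Module.End E A} {T : Module.End E B} {i : A →ₗ[E] B} (h : ∀ x, i (S x) = T (i x)) (ν : E)
    (p : ℕ) (x : A) :
    i (((S - ν • (1 : Module.End E A)) ^ p) x) = ((T - ν • (1 : Module.End E B)) ^ p) (i x) := by
  induction p generalizing x with
  | zero => simp
  | succ p ih =>
    rw [pow_succ, pow_succ, Module.End.mul_apply, Module.End.mul_apply, ih]
    congr 1
    simp [h]

section Exact

variable {A B C : Type*} [AddCommGroup A] [Module E A] [AddCommGroup B] [Module E B] [AddCommGroup C]
  [Module E C]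

theorem kd_le_of_injective [FiniteDimensional E B] {S : Module.End E A} {T : Module.End E B}
    {i : A →ₗ[E] B} (hi : Function.Injective i) (h : ∀ x, i (S x) = T (i x)) (ν : E) (p : ℕ) :
    kd S ν p ≤ kd T ν p := by
  unfold kd
  set KA := LinearMap.ker ((S - ν • (1 : Module.End E A)) ^ p)
  set KB := LinearMap.ker ((T - ν • (1 : Module.End E B)) ^ p)
  have hm : ∀ x ∈ KA, i x ∈ KB := by
    intro x hx
    rw [LinearMap.mem_ker] at hx ⊢
    rw [← pow_comm h, hx, map_zero]
  refine LinearMap.finrank_le_finrank_of_injective (f := i.restrict hm) ?_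
  intro x y hxy
  apply Subtype.ext
  apply hi
  exact congrArg Subtype.val hxy

theorem kd_congr [FiniteDimensional E A] [FiniteDimensional E B] {S : Module.End E A}
    {T : Module.End E B} (e : A ≃ₗ[E] B) (h : ∀ x, e (S x) = T (e x)) (ν : E) (p : ℕ) :
    kd S ν p = kd T ν p := by
  refine le_antisymm (kd_le_of_injective (i := e.toLinearMap) e.injective h ν p)
    (kd_le_of_injective (i := e.symm.toLinearMap) e.symm.injective (fun x => ?_) ν p)
  apply e.injective
  simp [h]

theorem kd_exact [FiniteDimensional E A] [FiniteDimensional E B] [FiniteDimensional E C]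
    {S : Module.End E A} {T : Module.End E B} {U : Module.End E C} {i : A →ₗ[E] B} {π : B →ₗ[E] C}
    (hi : Function.Injective i) (hex : ∀ y, π y = 0 → ∃ x, i x = y) (h1 : ∀ x, i (S x) = T (i x))
    (h2 : ∀ y, π (T y) = U (π y)) (ν : E) (p : ℕ) :
    kd T ν p ≤ kd S ν p + kd U ν p := by
  unfold kd
  set KA := LinearMap.ker ((S - ν • (1 : Module.End E A)) ^ p) with hKA
  set KB := LinearMap.ker ((T - ν • (1 : Module.End E B)) ^ p) with hKB
  set KC := LinearMap.ker ((U - ν • (1 : Module.End E C)) ^ p) with hKC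
  have hm : ∀ x ∈ KB, π x ∈ KC := by
    intro x hx
    rw [hKB, LinearMap.mem_ker] at hx
    rw [hKC, LinearMap.mem_ker, ← pow_comm h2, hx, map_zero]
  set f : KB →ₗ[E] KC := π.restrict hm with hf
  rw [← LinearMap.finrank_range_add_finrank_ker f, add_comm]
  refine add_le_add ?_ (Submodule.finrank_le _)
  have h3 : (LinearMap.ker f).map KB.subtype ≤ KA.map i := by
    rintro _ ⟨x, hx, rfl⟩
    have hx1 : π (x : B) = 0 := by
      have := congrArg Subtype.val (LinearMap.mem_ker.1 hx)
      exact this
    obtain ⟨a, ha⟩ := hex _ hx1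
    refine ⟨a, ?_, ha⟩
    rw [SetLike.mem_coe, hKA, LinearMap.mem_ker]
    apply hi
    rw [pow_comm h1, ha, map_zero]
    exact LinearMap.mem_ker.1 x.2
  have h4 : finrank E ((LinearMap.ker f).map KB.subtype) = finrank E (LinearMap.ker f) :=
    (Submodule.equivMapOfInjective KB.subtype (Submodule.subtype_injective KB) _).finrank_eq.symm
  rw [← h4]
  exact (Submodule.finrank_mono h3).trans (Submodule.finrank_map_le i KA)

end Exact

theorem kd_smul {A : Type*} [AddCommGroup A] [Module E A] (G : Module.End E A) {μ : E} (hμ : μ ≠ 0)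
    (ν : E) (p : ℕ) : kd (μ • G) ν p = kd G (ν / μ) p := by
  unfold kd
  have h : (μ • G - ν • (1 : Module.End E A)) = μ • (G - (ν / μ) • (1 : Module.End E A)) := by
    rw [smul_sub, smul_smul, mul_div_cancel₀ _ hμ]
  have h2 : (μ • (G - (ν / μ) • (1 : Module.End E A))) ^ p =
      μ ^ p • (G - (ν / μ) • (1 : Module.End E A)) ^ p := by
    rw [smul_pow]
  rw [h, h2, LinearMap.ker_smul _ _ (pow_ne_zero p hμ)]

theorem kd_zero {A : Type*} [AddCommGroup A] [Module E A] (T : Module.End E A) (ν : E) :
    kd T ν 0 = 0 := by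
  unfold kd
  rw [pow_zero]
  have : LinearMap.ker (1 : Module.End E A) = ⊥ := by
    rw [LinearMap.ker_eq_bot']
    intro m hm
    simpa using hm
  rw [this]
  simp

theorem kd_pi {ι : Type*} [Fintype ι] {A : ι → Type*} [∀ k, AddCommGroup (A k)] [∀ k, Module E (A k)]
    [∀ k, FiniteDimensional E (A k)] (S : ∀ k, Module.End E (A k)) (T : Module.End E (∀ k, A k))
    (h : ∀ x k, T x k = S k (x k)) (ν : E) (p : ℕ) : kd T ν p ≤ ∑ k, kd (S k) ν p := by
  unfold kd
  rw [← Module.finrank_pi_fintype]
  have hm : ∀ x : LinearMap.ker ((T - ν • (1 : Module.End E (∀ k, A k))) ^ p), ∀ k,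
      (x : ∀ k, A k) k ∈ LinearMap.ker ((S k - ν • (1 : Module.End E (A k))) ^ p) := by
    intro x k
    rw [LinearMap.mem_ker]
    have h1 := pow_comm (i := LinearMap.proj k) (S := T) (T := S k) (fun x => h x k) ν p x
    rw [LinearMap.mem_ker.1 x.2, map_zero] at h1
    exact h1.symm
  refine LinearMap.finrank_le_finrank_of_injective
    (f := (LinearMap.pi fun k => LinearMap.codRestrict _
      ((LinearMap.proj k).comp (Submodule.subtype _)) (fun x => hm x k) :
      LinearMap.ker ((T - ν • (1 : Module.End E (∀ k, A k))) ^ p) →ₗ[E]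
        ∀ k, LinearMap.ker ((S k - ν • (1 : Module.End E (A k))) ^ p))) ?_
  intro x y hxy
  apply Subtype.ext
  funext k
  exact congrArg Subtype.val (congrFun hxy k)

end Pool.Agent.Run7.h731.SE
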