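import Pool.Agent.Run7.h731.SE.Geo
import Pool.Agent.Run7.h731.SE.Alg

/-!
# The recursion for the powers of a variety
-/

set_option autoImplicit false
set_option linter.unusedSectionVars false

namespace Pool.Agent.Run7.h731.SE

open TensorProduct Module

universe u v w

namespace FrobCohomology

variable {q : ℕ} {E : Type u} [Field E] (C : FrobCohomology.{u, v, w} q E)

/-- the kernels of the powers of `F - ν` on `H ^ z (V)`, where `g = (z, ν)` -/
noncomputable def kz (V : C.Var) (p : ℕ) (g : Multiplicative ℤ × Eˣ) : ℕ :=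
  if 0 ≤ Multiplicative.toAdd g.1 then
    kd (C.frob V (Multiplicative.toAdd g.1).toNat) ((g.2 : Eˣ) : E) p else 0

theorem kz_nat (V : C.Var) (p : ℕ) (r : ℕ) (ν : Eˣ) :
    C.kz V p (Multiplicative.ofAdd (r : ℤ), ν) = kd (C.frob V r) (ν : E) p := by
  unfold kz
  simp

theorem kz_zero (V : C.Var) (g : Multiplicative ℤ × Eˣ) : C.kz V 0 g = 0 := by
  unfold kz
  split_ifs with h
  · exact kd_zero _ _
  · rfl

theorem kz_point [DecidableEq (Multiplicative ℤ × Eˣ)] (p : ℕ) (g : Multiplicative ℤ × Eˣ) :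
    C.kz C.point p g ≤ if 1 = g then 1 else 0 := by
  obtain ⟨z, ν⟩ := g
  unfold kz
  split_ifs with h1 h2 h2
  · have h3 : z = 1 := ((Prod.ext_iff.1 h2).1).symm
    subst h3
    refine (kd_le_finrank _ _ _).trans ?_
    exact le_of_eq C.finrank_point
  · simp only at h1 ⊢
    rcases Nat.eq_zero_or_pos (Multiplicative.toAdd z).toNat with h3 | h3
    · rw [h3]
      have h4 : ν ≠ 1 := by
        rintro rfl
        apply h2
        refine Prod.ext ?_ rfl
        have : Multiplicative.toAdd z = 0 := by omega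
        exact (toAdd_eq_zero.1 this).symm
      rw [C.frob_point]
      unfold kd
      have h5 : (1 : Module.End E (C.H C.point 0)) - (ν : E) • (1 : Module.End E (C.H C.point 0)) =
          (1 - (ν : E)) • (1 : Module.End E (C.H C.point 0)) := by
        rw [sub_smul, one_smul]
      have h6 : (1 - (ν : E)) ≠ 0 := by
        intro h
        exact h4 (Units.ext (by rw [Units.val_one]; linear_combination -h))
      have h7 : LinearMap.ker (((1 - (ν : E)) • (1 : Module.End E (C.H C.point 0))) ^ p) = ⊥ := by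
        rw [smul_pow, one_pow, LinearMap.ker_eq_bot']
        intro x hx
        simpa [h6] using hx
      rw [h5, h7]
      simp
    · refine (kd_le_finrank _ _ _).trans ?_
      rw [C.finrank_zero (by rw [C.dim_point]; omega)]
  · exact Nat.zero_le _
  · exact le_rfl

/-- the composition factors of the Frobenius of `V`, with a Jordan block of order `2` at `(r₀, μ)` -/
structure Data (V : C.Var) (r₀ : ℕ) (μ : Eˣ) where
  n : ℕ → ℕ
  l : ∀ j, Fin (n j) → Eˣ
  hn : ∀ j, n j + (if j = r₀ then 2 else 0) = finrank E (C.H V j)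
  bound : ∀ (j : ℕ) (W : Type w) [AddCommGroup W] [Module E W] [FiniteDimensional E W]
    (G : Module.End E W) (_ : Function.Injective G) (ν : E) (p : ℕ),
    kd (TensorProduct.map G (C.frob V j)) ν (p + 1) ≤
      (if j = r₀ then kd G (ν / μ) (p + 2) + kd G (ν / μ) p else 0) +
        ∑ k, kd G (ν / (l j k : Eˣ)) (p + 1)

theorem exists_data [IsAlgClosed E] [CharZero E] (V : C.Var) (r₀ : ℕ) (h : ¬ C.Semisimple V r₀) :
    ∃ μ : Eˣ, Nonempty (C.Data V r₀ μ) := by
  obtain ⟨μ, x, hx1, hx2⟩ := exists_jordan (C.frob V r₀) h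
  obtain ⟨hμ, h2, l₀, hl₀, hb₀⟩ := exists_list2.{u, w, w} (C.H V r₀) (C.frob V r₀)
    (C.frob_bijective V r₀).1 μ x hx1 hx2
  refine ⟨Units.mk0 μ hμ, ?_⟩
  have key : ∀ j, ∃ (n : ℕ) (l : Fin n → Eˣ), (n + (if j = r₀ then 2 else 0) = finrank E (C.H V j)) ∧
      ∀ (W : Type w) [AddCommGroup W] [Module E W] [FiniteDimensional E W]
        (G : Module.End E W) (_ : Function.Injective G) (ν : E) (p : ℕ),
        kd (TensorProduct.map G (C.frob V j)) ν (p + 1) ≤
          (if j = r₀ then kd G (ν / (Units.mk0 μ hμ : Eˣ)) (p + 2) +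
            kd G (ν / (Units.mk0 μ hμ : Eˣ)) p else 0) +
            ∑ k, kd G (ν / (l k : Eˣ)) (p + 1) := by
    intro j
    by_cases hj : j = r₀
    · subst hj
      refine ⟨finrank E (C.H V j) - 2, fun k => Units.mk0 (l₀ k) (hl₀ k), ?_, ?_⟩
      · rw [if_pos rfl]
        omega
      · intro W _ _ _ G hG ν p
        rw [if_pos rfl]
        exact hb₀ W G hG ν p
    · obtain ⟨l, hl, hb⟩ := exists_list.{u, w, w} (finrank E (C.H V j)) (C.H V j) (C.frob V j)
        (C.frob_bijective V j).1 rfl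
      refine ⟨finrank E (C.H V j), fun k => Units.mk0 (l k) (hl k), ?_, ?_⟩
      · rw [if_neg hj, add_zero]
      · intro W _ _ _ G hG ν p
        rw [if_neg hj, zero_add]
        exact hb W G ν (p + 1)
  choose n l hn hb using key
  exact ⟨⟨n, l, hn, hb⟩⟩

variable {C}

/-- the set of the composition factors -/
abbrev Data.K {V : C.Var} {r₀ : ℕ} {μ : Eˣ} (D : C.Data V r₀ μ) : Type :=
  Σ j : Fin (2 * C.dim V + 1), Fin (D.n j)

/-- the composition factors -/
def Data.γ {V : C.Var} {r₀ : ℕ} {μ : Eˣ} (D : C.Data V r₀ μ) (x : D.K) : Multiplicative ℤ × Eˣ :=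
  (Multiplicative.ofAdd ((x.1 : ℕ) : ℤ), D.l x.1 x.2)

/-- the factor of the Jordan block -/
def g₀ (r₀ : ℕ) (μ : Eˣ) : Multiplicative ℤ × Eˣ := (Multiplicative.ofAdd (r₀ : ℤ), μ)

theorem Data.card {V : C.Var} {r₀ : ℕ} {μ : Eˣ} (D : C.Data V r₀ μ) :
    Fintype.card D.K + 2 = C.betti V := by
  have hr : r₀ < 2 * C.dim V + 1 := by
    by_contra hcon
    have h1 := D.hn r₀
    rw [if_pos rfl, C.finrank_zero (by omega)] at h1
    omega
  unfold Data.K betti
  rw [Fintype.card_sigma]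
  simp only [Fintype.card_fin]
  rw [← Finset.sum_range (fun j => D.n j)]
  have h2 : ∑ j ∈ Finset.range (2 * C.dim V + 1), (if j = r₀ then 2 else 0) = 2 := by
    rw [Finset.sum_ite_eq' (Finset.range (2 * C.dim V + 1)) r₀, if_pos (Finset.mem_range.2 hr)]
  have h3 : ∑ j ∈ Finset.range (2 * C.dim V + 1), D.n j +
      ∑ j ∈ Finset.range (2 * C.dim V + 1), (if j = r₀ then 2 else 0) =
      ∑ r ∈ Finset.range (2 * C.dim V + 1), finrank E (C.H V r) := by
    rw [← Finset.sum_add_distrib]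
    exact Finset.sum_congr rfl fun j _ => D.hn j
  rw [h2] at h3
  exact h3

theorem Data.n_eq_zero {V : C.Var} {r₀ : ℕ} {μ : Eˣ} (D : C.Data V r₀ μ) {j : ℕ}
    (hj : 2 * C.dim V < j) : D.n j = 0 := by
  have h1 := D.hn j
  rw [C.finrank_zero hj] at h1
  omega

theorem Data.rec_nat {V : C.Var} {r₀ : ℕ} {μ : Eˣ} (D : C.Data V r₀ μ) (W : C.Var) (p r : ℕ)
    (ν : Eˣ) : C.kz (C.prod W V) (p + 1) (Multiplicative.ofAdd (r : ℤ), ν) ≤
      (C.kz W (p + 2) ((g₀ r₀ μ)⁻¹ * (Multiplicative.ofAdd (r : ℤ), ν)) +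
        C.kz W p ((g₀ r₀ μ)⁻¹ * (Multiplicative.ofAdd (r : ℤ), ν))) +
        ∑ x, C.kz W (p + 1) ((D.γ x)⁻¹ * (Multiplicative.ofAdd (r : ℤ), ν)) := by
  classical
  -- the Künneth formula
  set T : Module.End E (∀ i : Fin (r + 1), C.H W i ⊗[E] C.H V (r - i)) :=
    LinearMap.pi fun i => (TensorProduct.map (C.frob W i) (C.frob V (r - i))).comp
      (LinearMap.proj i) with hT
  have h1 : C.kz (C.prod W V) (p + 1) (Multiplicative.ofAdd (r : ℤ), ν) ≤
      ∑ i : Fin (r + 1), kd (TensorProduct.map (C.frob W i) (C.frob V (r - i))) (ν : E) (p + 1) := by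
    rw [kz_nat, kd_congr (T := T) (C.kunneth W V r)]
    · exact kd_pi (fun i : Fin (r + 1) => TensorProduct.map (C.frob W i) (C.frob V (r - i))) T
        (fun x k => rfl) _ _
    · intro x
      funext i
      rw [C.kunneth_frob]
      rfl
  refine h1.trans ?_
  -- the bounds for the factors
  set A : ℕ → ℕ → ℕ := fun j i => if j = r₀ then kd (C.frob W i) ((ν : E) / μ) (p + 2) +
    kd (C.frob W i) ((ν : E) / μ) p else 0 with hA
  set B : ℕ → ℕ → ℕ := fun j i => ∑ k, kd (C.frob W i) ((ν : E) / (D.l j k : Eˣ)) (p + 1) with hB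
  have h2 : ∑ i : Fin (r + 1), kd (TensorProduct.map (C.frob W i) (C.frob V (r - i))) (ν : E) (p + 1) ≤
      ∑ i : Fin (r + 1), (A (r - i) i + B (r - i) i) :=
    Finset.sum_le_sum fun i _ => D.bound (r - i) (C.H W i) (C.frob W i)
      (C.frob_bijective W i).1 (ν : E) p
  refine h2.trans ?_
  rw [Finset.sum_add_distrib]
  have key : ∀ f : ℕ → ℕ → ℕ, ∑ i : Fin (r + 1), f (r - i) i =
      ∑ j ∈ Finset.range (r + 1), f j (r - j) := by
    intro f
    rw [← Finset.sum_range (fun i => f (r - i) i), ← Finset.sum_range_reflect]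
    refine Finset.sum_congr rfl fun j hj => ?_
    rw [Finset.mem_range] at hj
    have e1 : r + 1 - 1 - j = r - j := by omega
    have e2 : r - (r - j) = j := by omega
    rw [e1, e2]
  rw [key, key]
  have hz : ∀ (j : ℕ) (l : Eˣ) (p : ℕ), C.kz W p ((Multiplicative.ofAdd (j : ℤ), l)⁻¹ *
      (Multiplicative.ofAdd (r : ℤ), ν)) = if j ≤ r then
        kd (C.frob W (r - j)) ((ν : E) / l) p else 0 := by
    intro j l p
    unfold kz
    have e1 : Multiplicative.toAdd (((Multiplicative.ofAdd (j : ℤ), l)⁻¹ *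
      (Multiplicative.ofAdd (r : ℤ), ν) : Multiplicative ℤ × Eˣ)).1 = (r : ℤ) - j := by
      simp only [Prod.fst_mul, Prod.fst_inv, toAdd_mul, toAdd_inv, toAdd_ofAdd]
      ring
    have e2 : ((((Multiplicative.ofAdd (j : ℤ), l)⁻¹ *
      (Multiplicative.ofAdd (r : ℤ), ν) : Multiplicative ℤ × Eˣ)).2 : E) = (ν : E) / l := by
      simp only [Prod.snd_mul, Prod.snd_inv, Units.val_mul, Units.val_inv_eq_inv_val]
      rw [div_eq_mul_inv, mul_comm]
    rw [e1, e2]
    by_cases hj : j ≤ r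
    · rw [if_pos (by omega), if_pos hj]
      have e3 : ((r : ℤ) - j).toNat = r - j := by omega
      rw [e3]
    · rw [if_neg (by omega), if_neg hj]
  refine add_le_add ?_ ?_
  · have h3 : ∑ j ∈ Finset.range (r + 1), A j (r - j) = if r₀ ∈ Finset.range (r + 1) then
        kd (C.frob W (r - r₀)) ((ν : E) / μ) (p + 2) + kd (C.frob W (r - r₀)) ((ν : E) / μ) p
        else 0 := by
      rw [← Finset.sum_ite_eq' (Finset.range (r + 1)) r₀ (fun j =>
        kd (C.frob W (r - j)) ((ν : E) / μ) (p + 2) + kd (C.frob W (r - j)) ((ν : E) / μ) p)]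
    rw [h3]
    unfold g₀
    rw [hz, hz]
    by_cases hj : r₀ ≤ r
    · rw [if_pos (Finset.mem_range.2 (by omega)), if_pos hj, if_pos hj]
    · rw [if_neg (by rw [Finset.mem_range]; omega)]
      exact Nat.zero_le _
  · unfold Data.K Data.γ
    rw [Fintype.sum_sigma]
    simp only [hz]
    rw [← Finset.sum_range (fun j => ∑ k : Fin (D.n j), if j ≤ r then
      kd (C.frob W (r - j)) ((ν : E) / (D.l j k : Eˣ)) (p + 1) else 0)]
    have h4 : ∀ j ∈ Finset.range (r + 1), B j (r - j) = ∑ k : Fin (D.n j), if j ≤ r then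
        kd (C.frob W (r - j)) ((ν : E) / (D.l j k : Eˣ)) (p + 1) else 0 := by
      intro j hj
      rw [Finset.mem_range] at hj
      rw [hB]
      refine Finset.sum_congr rfl fun k _ => ?_
      rw [if_pos (by omega)]
    rw [Finset.sum_congr rfl h4]
    refine Finset.sum_le_sum_of_ne_zero fun j _ hj => ?_
    rw [Finset.mem_range]
    by_contra hcon
    apply hj
    have h5 := D.n_eq_zero (j := j) (by omega)
    refine Finset.sum_eq_zero fun k _ => ?_
    exact absurd k.2 (by omega)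

theorem Data.step {V : C.Var} {r₀ : ℕ} {μ : Eˣ} (D : C.Data V r₀ μ) (W : C.Var) (p : ℕ)
    (g : Multiplicative ℤ × Eˣ) : C.kz (C.prod W V) (p + 1) g ≤
      (C.kz W (p + 2) ((g₀ r₀ μ)⁻¹ * g) + C.kz W p ((g₀ r₀ μ)⁻¹ * g)) +
        ∑ x, C.kz W (p + 1) ((D.γ x)⁻¹ * g) := by
  obtain ⟨z, ν⟩ := g
  by_cases hz : 0 ≤ Multiplicative.toAdd z
  · obtain ⟨r, hr⟩ := Int.eq_ofNat_of_zero_le hz
    have : z = Multiplicative.ofAdd (r : ℤ) := by
      rw [← hr]; rfl
    rw [this]
    exact D.rec_nat W p r ν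
  · have : C.kz (C.prod W V) (p + 1) (z, ν) = 0 := by
      unfold kz
      rw [if_neg hz]
    rw [this]
    exact Nat.zero_le _

open MonoidAlgebra in
theorem Data.chain {V : C.Var} {r₀ : ℕ} {μ : Eˣ} (D : C.Data V r₀ μ) (n p : ℕ)
    (g : Multiplicative ℤ × Eˣ) :
    C.kz (C.pow V n) p g ≤ cf (sol (single (g₀ r₀ μ) 1) (rest D.γ) n p) g := by
  classical
  exact SE.chain (g₀ r₀ μ) D.γ (fun n p g => C.kz (C.pow V n) p g) (fun p g => C.kz_point p g)
    (fun n g => C.kz_zero _ g) (fun n p g => D.step (C.pow V n) p g) n p g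

end FrobCohomology

end Pool.Agent.Run7.h731.SE
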