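import Pool.Agent.Run7.h731.SE.Lin

/-!
# Tensor products with one operator
-/

set_option autoImplicit false
set_option linter.unusedSectionVars false

namespace Pool.Agent.Run7.h731.SE

open TensorProduct Module

universe u v

variable {E : Type u} [Field E]

section

variable {W A B C : Type*} [AddCommGroup W] [Module E W] [AddCommGroup A] [Module E A]
  [AddCommGroup B] [Module E B] [AddCommGroup C] [Module E C] [FiniteDimensional E W]
  [FiniteDimensional E A] [FiniteDimensional E B] [FiniteDimensional E C]

theorem map_comm {f : B →ₗ[E] A} {FB : Module.End E B} {FA : Module.End E A}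
    (h : ∀ x, f (FB x) = FA (f x)) (G : Module.End E W) (x : W ⊗[E] B) :
    LinearMap.lTensor W f (TensorProduct.map G FB x) = TensorProduct.map G FA (LinearMap.lTensor W f x) := by
  induction x using TensorProduct.induction_on with
  | zero => simp
  | tmul x y => simp [h]
  | add x y hx hy => simp only [map_add, hx, hy]

theorem kd_tensor_exact {f : B →ₗ[E] A} {g : A →ₗ[E] C} (hf : Function.Injective f)
    (hg : Function.Surjective g) (hfg : Function.Exact f g) {FB : Module.End E B}
    {FA : Module.End E A} {FC : Module.End E C} (h1 : ∀ x, f (FB x) = FA (f x))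
    (h2 : ∀ y, g (FA y) = FC (g y)) (G : Module.End E W) (ν : E) (p : ℕ) :
    kd (TensorProduct.map G FA) ν p ≤
      kd (TensorProduct.map G FB) ν p + kd (TensorProduct.map G FC) ν p := by
  refine kd_exact (i := LinearMap.lTensor W f) (π := LinearMap.lTensor W g)
    (Module.Flat.lTensor_preserves_injective_linearMap f hf) (fun y hy => ?_)
    (map_comm h1 G) (map_comm h2 G) ν p
  exact (lTensor_exact W hfg hg y).1 hy

theorem kd_line (G : Module.End E W) {μ : E} (hμ : μ ≠ 0) (ν : E) (p : ℕ) :
    kd (TensorProduct.map G (μ • (1 : Module.End E E))) ν p = kd G (ν / μ) p := by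
  rw [← kd_smul G hμ]
  refine kd_congr (TensorProduct.rid E W) (fun x => ?_) ν p
  induction x using TensorProduct.induction_on with
  | zero => simp
  | tmul x y => simp [smul_smul, mul_comm]
  | add x y hx hy => simp only [map_add, hx, hy]

/-- the operator `(x, y) ↦ (μ G x + G y, μ G y)` -/
noncomputable def blk (G : Module.End E W) (μ : E) : Module.End E (W × W) :=
  LinearMap.prod ((μ • G).comp (LinearMap.fst E W W) + G.comp (LinearMap.snd E W W))
    ((μ • G).comp (LinearMap.snd E W W))

theorem blk_apply (G : Module.End E W) (μ : E) (z : W × W) :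
    blk G μ z = (μ • G z.1 + G z.2, μ • G z.2) := rfl

theorem blk_pow (G : Module.End E W) (μ ν : E) (n : ℕ) (z : W × W) :
    ((blk G μ - ν • (1 : Module.End E (W × W))) ^ (n + 1)) z =
      (((μ • G - ν • (1 : Module.End E W)) ^ (n + 1)) z.1 +
        ((n + 1 : ℕ) : E) • ((μ • G - ν • (1 : Module.End E W)) ^ n) (G z.2),
        ((μ • G - ν • (1 : Module.End E W)) ^ (n + 1)) z.2) := by
  induction n generalizing z with
  | zero =>
    simp only [zero_add, pow_one, pow_zero, LinearMap.sub_apply, LinearMap.smul_apply,
      Module.End.one_apply, blk_apply, Nat.cast_one, one_smul]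
    ext <;> simp
    abel
  | succ n ih =>
    have hc : ∀ y, ((μ • G - ν • (1 : Module.End E W))) (G y) =
        G ((μ • G - ν • (1 : Module.End E W)) y) := by
      intro y
      simp
    rw [pow_succ, Module.End.mul_apply, ih]
    have e : (blk G μ - ν • (1 : Module.End E (W × W))) z =
        ((μ • G - ν • (1 : Module.End E W)) z.1 + G z.2, (μ • G - ν • (1 : Module.End E W)) z.2) := by
      simp only [LinearMap.sub_apply, LinearMap.smul_apply, Module.End.one_apply, blk_apply]
      ext <;> simp
      abel
    rw [e]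
    ext
    · simp only [map_add]
      rw [pow_succ _ (n + 1), Module.End.mul_apply]
      rw [← hc, ← Module.End.mul_apply (f := (μ • G - ν • (1 : Module.End E W)) ^ n), ← pow_succ]
      push_cast
      rw [add_smul ((n : E) + 1) 1, one_smul]
      abel
    · simp only
      rw [pow_succ _ (n + 1), Module.End.mul_apply]

theorem kd_blk [CharZero E] {G : Module.End E W} (hG : Function.Injective G) {μ : E} (hμ : μ ≠ 0)
    (ν : E) (p : ℕ) : kd (blk G μ) ν (p + 1) ≤ kd G (ν / μ) (p + 2) + kd G (ν / μ) p := by
  rw [← kd_smul G hμ, ← kd_smul G hμ]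
  unfold kd
  set D := (μ • G - ν • (1 : Module.End E W)) with hD
  have hc : ∀ (n : ℕ) (y : W), (D ^ n) (G y) = G ((D ^ n) y) := by
    intro n y
    have h1 : Commute D G := by
      rw [hD]
      exact ((Commute.refl G).smul_left μ).sub_left ((Commute.one_left G).smul_left ν)
    exact congrArg (fun f => f y) (h1.pow_left n).eq
  set K := LinearMap.ker ((blk G μ - ν • (1 : Module.End E (W × W))) ^ (p + 1)) with hK
  have hmem : ∀ z ∈ K, (D ^ (p + 1)) z.1 + ((p + 1 : ℕ) : E) • (D ^ p) (G z.2) = 0 ∧
      (D ^ (p + 1)) z.2 = 0 := by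
    intro z hz
    rw [hK, LinearMap.mem_ker, blk_pow] at hz
    exact ⟨congrArg Prod.fst hz, congrArg Prod.snd hz⟩
  have hm : ∀ z ∈ K, LinearMap.fst E W W z ∈ LinearMap.ker (D ^ (p + 2)) := by
    intro z hz
    obtain ⟨h1, h2⟩ := hmem z hz
    rw [LinearMap.mem_ker, LinearMap.fst_apply, pow_succ', Module.End.mul_apply,
      eq_neg_of_add_eq_zero_left h1, map_neg, map_smul, ← Module.End.mul_apply, ← pow_succ', hc, h2]
    simp
  set f := (LinearMap.fst E W W).restrict hm with hf
  rw [← LinearMap.finrank_range_add_finrank_ker f]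
  refine add_le_add (Submodule.finrank_le _) ?_
  have h3 : ∀ z : LinearMap.ker f, ((z : K) : W × W).2 ∈ LinearMap.ker (D ^ p) := by
    intro z
    have h4 : ((z : K) : W × W).1 = 0 := by
      have := congrArg Subtype.val (LinearMap.mem_ker.1 z.2)
      exact this
    obtain ⟨h1, h2⟩ := hmem _ (z : K).2
    rw [h4, map_zero, zero_add] at h1
    have h5 : (D ^ p) (G ((z : K) : W × W).2) = 0 := by
      rcases smul_eq_zero.1 h1 with h | h
      · exact absurd h (Nat.cast_ne_zero.2 (Nat.succ_ne_zero p))
      · exact h
    rw [hc] at h5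
    rw [LinearMap.mem_ker]
    exact hG (by rw [h5, map_zero])
  refine LinearMap.finrank_le_finrank_of_injective
    (f := (LinearMap.codRestrict _ ((LinearMap.snd E W W).comp
      ((Submodule.subtype K).comp (Submodule.subtype (LinearMap.ker f)))) (fun z => h3 z) :
      LinearMap.ker f →ₗ[E] LinearMap.ker (D ^ p))) ?_
  intro z w hzw
  have h6 : ((z : K) : W × W).2 = ((w : K) : W × W).2 := congrArg Subtype.val hzw
  have h7 : ∀ z : LinearMap.ker f, ((z : K) : W × W).1 = 0 := by
    intro z
    have := congrArg Subtype.val (LinearMap.mem_ker.1 z.2)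
    exact this
  apply Subtype.ext
  apply Subtype.ext
  exact Prod.ext ((h7 z).trans (h7 w).symm) h6

/-- the block of size two -/
noncomputable def jb (μ : E) : Module.End E (E × E) :=
  LinearMap.prod (μ • (LinearMap.fst E E E) + LinearMap.snd E E E) (μ • (LinearMap.snd E E E))

theorem kd_jb [CharZero E] {G : Module.End E W} (hG : Function.Injective G) {μ : E} (hμ : μ ≠ 0)
    (ν : E) (p : ℕ) :
    kd (TensorProduct.map G (jb μ)) ν (p + 1) ≤ kd G (ν / μ) (p + 2) + kd G (ν / μ) p := by
  refine le_trans (le_of_eq ?_) (kd_blk hG hμ ν p)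
  refine kd_congr ((TensorProduct.prodRight E E W E E).trans
    (LinearEquiv.prodCongr (TensorProduct.rid E W) (TensorProduct.rid E W))) (fun x => ?_) ν (p + 1)
  induction x using TensorProduct.induction_on with
  | zero => simp [blk_apply]
  | tmul x y =>
    obtain ⟨s, t⟩ := y
    simp [jb, blk_apply, add_smul, smul_smul]
  | add x y hx hy => simp only [map_add, hx, hy]

end

end Pool.Agent.Run7.h731.SE
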