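import Pool.Agent.Run7.h731.SE.Law
import Pool.Agent.Run7.h731.SE.Coh

/-!
# The two forms of the cohomology
-/

set_option autoImplicit false

namespace Pool.Agent.Run7.h731.SE

open TensorProduct Module

universe u v w

namespace Cohomology

variable {q : ℕ} {E : Type u} [Field E] (C : Cohomology.{u, v, w} q E)

/-- the cohomology groups, unbundled -/
noncomputable def un : FrobCohomology.{u, v, w} q E where
  Var := C.Var
  dim := C.dim
  H V r := (C.H V r).X
  frob V r := (C.H V r).F
  frob_bijective V r := (C.H V r).bij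
  vanishing V r h := Module.finrank_zero_iff.1 (C.vanishing V r h)
  point := C.point
  dim_point := C.dim_point
  finrank_point := C.finrank_point
  frob_point := C.frob_point
  prod := C.prod
  dim_prod := C.dim_prod
  kunneth V W r := Classical.choose (C.kunneth V W r)
  kunneth_frob V W r x i := congrFun (Classical.choose_spec (C.kunneth V W r) x) i
  duality V r s h := Classical.choose (C.duality V r s h)
  duality_frob V r s h := Classical.choose_spec (C.duality V r s h)

theorem un_pow (V : C.Var) (n : ℕ) : C.un.pow V n = C.pow V n := by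
  induction n with
  | zero => rfl
  | succ n ih =>
    have h1 : C.un.pow V (n + 1) = C.prod (C.un.pow V n) V := rfl
    have h2 : C.pow V (n + 1) = C.prod (C.pow V n) V := rfl
    rw [h1, h2, ih]

theorem un_semisimple (V : C.Var) (r : ℕ) : C.un.Semisimple V r ↔ C.Semisimple V r := Iff.rfl

theorem un_blocks (V : C.Var) (r k : ℕ) : C.un.BlocksLe V r k ↔ (C.H V r).BlocksLe k := Iff.rfl

theorem un_betti (V : C.Var) : C.un.betti V = C.betti V := rfl

theorem un_eigenDim (V : C.Var) : C.un.eigenDim V = C.eigenDim V := rfl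

theorem un_tateDim (V : C.Var) : C.un.tateDim V = C.tateDim V := rfl

theorem un_genTateDim (V : C.Var) : C.un.genTateDim V = C.genTateDim V := rfl

theorem full {V : C.Var} (h : ∀ r, C.Semisimple V r) : C.Full V := by
  have h1 : ∀ n r, C.un.Semisimple (C.pow V n) r := by
    intro n
    rw [← C.un_pow]
    exact C.un.semisimple_pow h n
  exact ⟨h1, fun n => C.un.eigenDim_eq (h1 n), fun n => C.un.tateDim_eq_gen (h1 n)⟩

theorem sparse [IsAlgClosed E] [CharZero E] (hq : 0 < q) {V : C.Var}
    (h : ¬ ∀ r, C.Semisimple V r) : C.Sparse V := by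
  have hq' : (q : E) ≠ 0 := by exact_mod_cast hq.ne'
  push Not at h
  obtain ⟨r, hr⟩ := h
  obtain ⟨μ, ⟨D⟩⟩ := C.un.exists_data V r hr
  obtain ⟨h1, h2⟩ := D.limit hq'
  have h3 := fun n => D.ratio n
  have h4 : ∀ n, ¬ C.un.BlocksLe (C.un.pow V n) (n * r) n :=
    fun n hcon => D.block n (hcon ((μ : E) ^ n))
  simp only [C.un_pow] at h1 h2 h3 h4
  exact ⟨h3, fun n => ⟨n * r, h4 n⟩, h1, h2⟩

end Cohomology

end Pool.Agent.Run7.h731.SE
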