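import Mathlib

/-!
# Walks which stay positive
-/

set_option autoImplicit false

namespace Pool.Agent.Run7.h731.SE

open Finset

/-- the number of walks with `j` steps `± 1` from `p` which stay positive -/
def ew : ℕ → ℕ → ℕ
  | 0, 0 => 0
  | 0, (_ + 1) => 1
  | (_ + 1), 0 => 0
  | (j + 1), (p + 1) => ew j (p + 2) + ew j p

theorem ew_zero_right (j : ℕ) : ew j 0 = 0 := by
  cases j <;> simp [ew]

theorem ew_le (j p : ℕ) : ew j p ≤ 2 ^ j := by
  induction j generalizing p with
  | zero => cases p <;> simp [ew]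
  | succ j ih =>
    cases p with
    | zero => simp [ew]
    | succ p =>
      have h1 := ih (p + 2)
      have h2 := ih p
      rw [pow_succ]
      simp only [ew]
      omega

theorem ew_formula (j p : ℕ) : ew j p =
    ∑ i ∈ range (j + 1), if j < 2 * i + p ∧ 2 * i ≤ j + p then j.choose i else 0 := by
  induction j generalizing p with
  | zero => cases p <;> simp [ew]
  | succ j ih =>
    cases p with
    | zero =>
      rw [ew_zero_right]
      symm
      apply Finset.sum_eq_zero
      intro i _
      rw [if_neg]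
      omega
    | succ p =>
      simp only [ew]
      rw [ih, ih, ← Finset.sum_add_distrib]
      have e1 : ∑ i ∈ range (j + 1 + 1), (if j + 1 < 2 * i + (p + 1) ∧ 2 * i ≤ j + 1 + (p + 1) then
          (j + 1).choose i else 0) =
          ∑ i ∈ range (j + 1), ((if j + 1 < 2 * i + (p + 1) ∧ 2 * i ≤ j + 1 + (p + 1) then
            j.choose i else 0) +
            (if j + 1 < 2 * (i + 1) + (p + 1) ∧ 2 * (i + 1) ≤ j + 1 + (p + 1) then
              j.choose i else 0)) := by
        rw [Finset.sum_add_distrib, Finset.sum_range_succ']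
        have e2 : ∑ i ∈ range (j + 1), (if j + 1 < 2 * i + (p + 1) ∧ 2 * i ≤ j + 1 + (p + 1) then
            j.choose i else 0) =
            (∑ i ∈ range (j + 1), (if j + 1 < 2 * (i + 1) + (p + 1) ∧
              2 * (i + 1) ≤ j + 1 + (p + 1) then j.choose (i + 1) else 0)) +
              (if j + 1 < 2 * 0 + (p + 1) ∧ 2 * 0 ≤ j + 1 + (p + 1) then j.choose 0 else 0) := by
          rw [← Finset.sum_range_succ' (fun i => if j + 1 < 2 * i + (p + 1) ∧
            2 * i ≤ j + 1 + (p + 1) then j.choose i else 0), Finset.sum_range_succ _ (j + 1),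
            Nat.choose_succ_self]
          simp
        have e3 : ∑ i ∈ range (j + 1), (if j + 1 < 2 * (i + 1) + (p + 1) ∧
            2 * (i + 1) ≤ j + 1 + (p + 1) then (j + 1).choose (i + 1) else 0) =
            (∑ i ∈ range (j + 1), (if j + 1 < 2 * (i + 1) + (p + 1) ∧
              2 * (i + 1) ≤ j + 1 + (p + 1) then j.choose i else 0)) +
            ∑ i ∈ range (j + 1), (if j + 1 < 2 * (i + 1) + (p + 1) ∧
              2 * (i + 1) ≤ j + 1 + (p + 1) then j.choose (i + 1) else 0) := by
          rw [← Finset.sum_add_distrib]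
          refine Finset.sum_congr rfl fun i _ => ?_
          rw [Nat.choose_succ_succ']
          split_ifs <;> omega
        rw [e2, e3]
        simp only [Nat.choose_zero_right]
        ring
      rw [e1]
      refine Finset.sum_congr rfl fun i _ => ?_
      split_ifs <;> omega

theorem ew_one (j : ℕ) : ew j 1 = j.choose ((j + 1) / 2) := by
  rw [ew_formula, Finset.sum_eq_single ((j + 1) / 2)]
  · rw [if_pos]
    omega
  · intro i _ hi
    rw [if_neg]
    omega
  · intro h
    exact absurd (Finset.mem_range.2 (by omega)) h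

theorem central_sq (m : ℕ) : (2 * m).choose m ^ 2 * (2 * m + 1) ≤ 16 ^ m := by
  induction m with
  | zero => simp
  | succ m ih =>
    have h1 := Nat.succ_mul_centralBinom_succ m
    rw [Nat.centralBinom_eq_two_mul_choose, Nat.centralBinom_eq_two_mul_choose] at h1
    set a := (2 * (m + 1)).choose (m + 1) with ha
    set c := (2 * m).choose m with hc
    -- `(m + 1) a = 2 (2 m + 1) c`
    have h2 : ((m + 1) * a) ^ 2 * (2 * (m + 1) + 1) ≤ (m + 1) ^ 2 * 16 ^ (m + 1) := by
      rw [h1, pow_succ 16 m]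
      have h3 : (2 * m + 1) * (2 * m + 3) ≤ 4 * (m + 1) ^ 2 := by nlinarith
      calc (2 * (2 * m + 1) * c) ^ 2 * (2 * (m + 1) + 1)
          = 4 * (c ^ 2 * (2 * m + 1)) * ((2 * m + 1) * (2 * m + 3)) := by ring
        _ ≤ 4 * 16 ^ m * (4 * (m + 1) ^ 2) := by gcongr
        _ = (m + 1) ^ 2 * (16 ^ m * 16) := by ring
    have h4 : (m + 1) ^ 2 * (a ^ 2 * (2 * (m + 1) + 1)) ≤ (m + 1) ^ 2 * 16 ^ (m + 1) := by
      calc _ = ((m + 1) * a) ^ 2 * (2 * (m + 1) + 1) := by ring
        _ ≤ _ := h2
    exact Nat.le_of_mul_le_mul_left h4 (by positivity)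

theorem ew_one_sq (j : ℕ) : ew j 1 ^ 2 * (j + 1) ≤ 4 ^ j := by
  rw [ew_one]
  rcases Nat.even_or_odd' j with ⟨m, rfl | rfl⟩
  · have h1 : (2 * m + 1) / 2 = m := by omega
    rw [h1]
    refine (central_sq m).trans (le_of_eq ?_)
    rw [pow_mul]
    norm_num
  · have h1 : (2 * m + 1 + 1) / 2 = m + 1 := by omega
    rw [h1]
    have h2 : (2 * (m + 1)).choose (m + 1) = 2 * (2 * m + 1).choose (m + 1) := by
      have e : 2 * (m + 1) = (2 * m + 1) + 1 := by ring
      rw [e, Nat.choose_succ_succ', ← Nat.choose_symm_half m]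
      ring
    have h3 := central_sq (m + 1)
    rw [h2] at h3
    have h4 : (16 : ℕ) ^ (m + 1) = 4 * 4 ^ (2 * m + 1) := by
      rw [← pow_succ', show 2 * m + 1 + 1 = 2 * (m + 1) by ring, pow_mul]
      norm_num
    rw [h4] at h3
    have h5 : 4 * ((2 * m + 1).choose (m + 1) ^ 2 * (2 * m + 1 + 1)) ≤ 4 * 4 ^ (2 * m + 1) := by
      refine le_trans ?_ h3
      calc 4 * ((2 * m + 1).choose (m + 1) ^ 2 * (2 * m + 1 + 1))
          ≤ 4 * ((2 * m + 1).choose (m + 1) ^ 2 * (2 * (m + 1) + 1)) := by gcongr; omega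
        _ = _ := by ring
    exact Nat.le_of_mul_le_mul_left h5 (by norm_num)

section Sol

variable {S : Type*} [CommSemiring S]

/-- the solution of the recursion -/
def sol (s R : S) (n p : ℕ) : S := ∑ j ∈ range (n + 1), (n.choose j * ew j p) • (s ^ j * R ^ (n - j))

theorem sol_zero_right (s R : S) (n : ℕ) : sol s R n 0 = 0 := by
  unfold sol
  apply Finset.sum_eq_zero
  intro j _
  rw [ew_zero_right]
  simp

theorem sol_zero (s R : S) (p : ℕ) : sol s R 0 (p + 1) = 1 := by
  simp [sol, ew]

theorem sol_succ (s R : S) (n p : ℕ) : sol s R (n + 1) (p + 1) =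
    s * (sol s R n (p + 2) + sol s R n p) + R * sol s R n (p + 1) := by
  have e1 : s * (sol s R n (p + 2) + sol s R n p) =
      ∑ i ∈ range (n + 1), (n.choose i * ew (i + 1) (p + 1)) • (s ^ (i + 1) * R ^ (n - i)) := by
    unfold sol
    rw [← Finset.sum_add_distrib, Finset.mul_sum]
    refine Finset.sum_congr rfl fun i _ => ?_
    simp only [ew, nsmul_eq_mul]
    push_cast
    ring
  have e2 : R * sol s R n (p + 1) =
      (∑ i ∈ range (n + 1), (n.choose (i + 1) * ew (i + 1) (p + 1)) • (s ^ (i + 1) * R ^ (n - i))) +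
        (n.choose 0 * ew 0 (p + 1)) • (s ^ 0 * R ^ (n + 1)) := by
    unfold sol
    rw [Finset.sum_range_succ', Finset.sum_range_succ (fun i => (n.choose (i + 1) *
      ew (i + 1) (p + 1)) • (s ^ (i + 1) * R ^ (n - i))), Nat.choose_succ_self, mul_add,
      Finset.mul_sum]
    simp only [zero_mul, zero_smul, add_zero]
    congr 1
    · refine Finset.sum_congr rfl fun i hi => ?_
      rw [Finset.mem_range] at hi
      have e3 : n - i = (n - (i + 1)) + 1 := by omega
      rw [e3, pow_succ R]
      simp only [nsmul_eq_mul]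
      ring
    · simp only [nsmul_eq_mul]
      rw [Nat.sub_zero, pow_succ]
      ring
  rw [e1, e2, ← add_assoc, ← Finset.sum_add_distrib]
  unfold sol
  rw [Finset.sum_range_succ']
  congr 1
  · refine Finset.sum_congr rfl fun i _ => ?_
    have e5 : n + 1 - (i + 1) = n - i := by omega
    rw [Nat.choose_succ_succ', add_mul, add_smul, e5]
  · simp

end Sol

end Pool.Agent.Run7.h731.SE
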